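import Pool.Agent.Helper84.GN.I4
import Pool.Agent.Helper90.RK.FB
import Pool.Agent.Helper96.RK.Ty5
import Pool.Agent.Helper96.RK.Ty6
import Pool.Agent.Helper66.RK.Kak
import Pool.Agent.Helper84.NI.Fin

/-!
# Project RK: the rank theorem
-/

set_option autoImplicit false

open Filter Topology

namespace Pool.Agent.Helper84.GN

open NI GVN Pool.Agent.Helper90.RK Pool.Agent.Helper96.RK Pool.Agent.Helper66.RK

theorem hasCoc {G : Type} [Group G] {N : ℕ} {P : PH G N} {S : Sv P} (T : Str S) :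
    HasCoc (Pool.Agent.Helper96.RK.toReg T) := by
  obtain ⟨L, i1, i2, i3, ⟨Ψ⟩⟩ := exists_fibM T.b
  exact ⟨L, i1, i2, i3, toCoc T Ψ, fun Q ε hε => exists_Mul T Ψ Q ε hε⟩

section Hom

variable {Γ Λ : Type} [Group Γ] [Group Λ] (θ : LG Λ →⋆ₐ[ℂ] LG Γ)

/-- The embedding of the unitaries of a subgroup. -/
noncomputable def subEmb (hτ : ∀ x, GVN.tr (θ x) = GVN.tr x) (A : Subgroup Λ) : Emb A Γ where
  U := (hv θ).comp A.subtype
  comm := fun l => hv_commR θ l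
  tr := fun l hl => hv_tr θ hτ (by simpa using hl)

theorem hv_hv (a b : Λ) (f : L2 Γ) : hv θ a (hv θ b f) = hv θ (a * b) f := by
  rw [map_mul]
  rfl

theorem hv_comm {a b : Λ} (h : a * b = b * a) (f : L2 Γ) : hv θ a (hv θ b f) = hv θ b (hv θ a f) := by
  rw [hv_hv, hv_hv, h]

theorem hv_orthonormal (hτ : ∀ x, GVN.tr (θ x) = GVN.tr x) {B : Subgroup Λ} (e : ℕ ↪ B) :
    Orthonormal ℂ (fun n : ℕ => cf (hv θ (e n : Λ))) := by
  have hne : ∀ m n : ℕ, m ≠ n → ((e m : Λ)⁻¹ * (e n : Λ)) ≠ 1 := by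
    intro m n hmn h
    apply hmn
    apply e.injective
    apply Subtype.ext
    exact inv_mul_eq_one.1 h
  refine ⟨fun n => norm_cf _, fun m n hmn => ?_⟩
  have h1 : cf (hv θ ((e m : Λ)⁻¹ * (e n : Λ))) 1 = 0 := hv_tr θ hτ (hne m n hmn)
  have h2 : inner ℂ (cf (hv θ (e m : Λ))) (cf (hv θ (e n : Λ))) =
      inner ℂ (dl 1) (cf (hv θ ((e m : Λ)⁻¹ * (e n : Λ)))) := by
    rw [← LinearIsometryEquiv.inner_map_map (hv θ (e m : Λ)) (dl 1)]
    congr 1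
    change hv θ (e n : Λ) (dl 1) = hv θ (e m : Λ) (hv θ ((e m : Λ)⁻¹ * (e n : Λ)) (dl 1))
    rw [hv_hv, mul_inv_cancel_left]
  exact h2.trans ((inner_dl_left _ _).trans h1)

/-- The rank theorem. -/
theorem no_hom_rank {N r : ℕ} (P : PH Γ N) (hK : Kak P r) (A : Fin r → Subgroup Λ) (B : Subgroup Λ)
    (hA : ∀ i, NonAm (A i)) (hB : Infinite B)
    (hAA : ∀ i j, i ≠ j → ∀ x ∈ A i, ∀ y ∈ A j, x * y = y * x)
    (hAB : ∀ i, ∀ x ∈ A i, ∀ y ∈ B, x * y = y * x)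
    (hτ : ∀ x, GVN.tr (θ x) = GVN.tr x) : False := by
  obtain ⟨S⟩ := nonempty_sv P
  obtain ⟨e⟩ : Nonempty (ℕ ↪ B) := ⟨Infinite.natEmbedding B⟩
  have hr : LinRk S r := KAK.linRk (show KAK P r from hK) S
  exact rank_bound (S := S) (fun T => hasCoc T) hr (fun i => A i) (fun i => subEmb θ hτ (A i)) hA
    (fun i j hij l l' f => hv_comm θ (hAA i j hij l l.2 l' l'.2) f)
    (fun n => hv θ (e n : Λ)) (fun n => hv_commR θ _)
    (fun i n l f => hv_comm θ (hAB i l l.2 _ (e n).2).symm f)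
    (fun g => tendsto_of_orthonormal (hv_orthonormal θ hτ e) g)

end Hom

end Pool.Agent.Helper84.GN
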