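import Pool.Agent.Helper84.GN.I2
import Pool.Agent.Helper90.RK.AM
import Pool.Agent.Helper90.RK.Fibre

/-!
# Project RK, block I3: the multipliers (compare `NI/XB.lean`)

ADAPT `NI/XB.lean` (helper35). `AMd P Q ε`: the data of `am_PH`. `mt D T γ t y = √(κ (fr T γ y) t)`.
`mt_hm`: more generally `Hm T.b (fun y => √(D.κ (k * ql (D b (colM y))) t))` for every unitary `k`. Measurable: `k ↦ D.κ k t` is continuous on the closed set of unitary matrices (`near`, as `kᴴ k' → 1`), and
`y ↦ k * ql (..)` has measurable entries (`ql_meas`) and values in this set. Invariance under block scalars `z`: if `y` is generic: `A = D b (colM y)`, `D b (colM (z * y)) = diagonal z * A` (`colM_scal`), `ql_rel` with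
`M = diagonal z` (which commutes with the block diagonal matrix `ql A`, `ql_D`): `(ql (diagonal z * A))ᴴ ql A * diagonal z` vanishes above the diagonal, so does `(ql (diagonal z * A))ᴴ ql A`, and `kap_tri`; if not, both `ql` are `1`
(`ql_sing`). `mt_left`, `mt_right` as in `NI/XB.lean` with `fr_entries`, `tendsto_upper`, `T.C_compact`, `Kb_sub`, `P.ι 1 = c • 1` (`Sv.iota_one` or similar in `RK/GB.lean`).
-/

set_option autoImplicit false

open Filter Topology Matrix

namespace Pool.Agent.Helper84.GN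

open NI Pool.Agent.Helper90.RK

variable {G : Type} [Group G] {N : ℕ}

/-- Data of the amenability theorem. -/
structure AMd (P : PH G N) (Q : Finset G) (ε : ℝ) where
  /-- the support -/
  supp : Finset G
  /-- the probability measures -/
  κ : MN N → G → ℝ
  /-- the allowed deviation from triangular form -/
  d : ℝ
  dpos : 0 < d
  nonneg : ∀ k t, 0 ≤ κ k t
  off : ∀ k t, t ∉ supp → κ k t = 0
  sum : ∀ k, IsU k → ∑ t ∈ supp, κ k t = 1
  tri : ∀ h ∈ Q, ∀ k k' : MN N, IsU k → IsU k' → (∀ i j : Fin N, i < j → ‖(kᴴ * P.ι h * k') i j‖ ≤ d) →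
    ∀ s : Finset G, ∑ t ∈ s, |κ k t - κ k' (h⁻¹ * t)| ≤ ε
  near : ∀ ε' : ℝ, 0 < ε' → ∃ d' : ℝ, 0 < d' ∧ ∀ k k' : MN N, IsU k → IsU k' →
    (∀ i j : Fin N, i < j → ‖(kᴴ * k') i j‖ ≤ d') → ∑ t ∈ supp, |κ k t - κ k' t| ≤ ε'

theorem exists_AMd (P : PH G N) (Q : Finset G) {ε : ℝ} (hε : 0 < ε) : Nonempty (AMd P Q ε) := by
  obtain ⟨S, κ, d, hd, h1, h2, h3, h4, h5⟩ := am_PH P Q hε
  exact ⟨⟨S, κ, d, hd, h1, h2, h3, h4, h5⟩⟩

variable {P : PH G N} {S : Sv P} {Q : Finset G} {ε : ℝ}

theorem AMd.kap_tri (A : AMd P Q ε) {k k' : MN N} (hk : IsU k) (hk' : IsU k')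
    (h : ∀ i j : Fin N, i < j → (kᴴ * k') i j = 0) (t : G) : A.κ k t = A.κ k' t := by
  by_cases ht : t ∈ A.supp
  · have h1 : ∀ e : ℝ, 0 < e → |A.κ k t - A.κ k' t| ≤ e := by
      intro e he
      obtain ⟨d', hd', hn⟩ := A.near e he
      have h2 := hn k k' hk hk' (fun i j hij => by rw [h i j hij, norm_zero]; exact hd'.le)
      exact (Finset.single_le_sum (f := fun t => |A.κ k t - A.κ k' t|) (fun _ _ => abs_nonneg _) ht).trans h2
    have h3 : |A.κ k t - A.κ k' t| ≤ 0 := le_of_forall_pos_le_add fun e he => by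
      rw [zero_add]
      exact h1 e he
    exact sub_eq_zero.mp (abs_eq_zero.mp (le_antisymm h3 (abs_nonneg _)))
  · rw [A.off k t ht, A.off k' t ht]

theorem AMd.kap_le_one (A : AMd P Q ε) {k : MN N} (hk : IsU k) (t : G) : A.κ k t ≤ 1 := by
  by_cases ht : t ∈ A.supp
  · rw [← A.sum k hk]
    exact Finset.single_le_sum (f := fun t => A.κ k t) (fun _ _ => A.nonneg _ _) ht
  · rw [A.off k t ht]
    exact zero_le_one

/-- comparison of square roots -/
theorem sqrt_sub_sq_le3 {a b : ℝ} (ha : 0 ≤ a) (hb : 0 ≤ b) : (Real.sqrt a - Real.sqrt b) ^ 2 ≤ |a - b| := by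
  have h1 : a - b = (Real.sqrt a - Real.sqrt b) * (Real.sqrt a + Real.sqrt b) := by
    have e1 := Real.mul_self_sqrt ha
    have e2 := Real.mul_self_sqrt hb
    linear_combination -e1 + e2
  have h2 : 0 ≤ Real.sqrt a := Real.sqrt_nonneg a
  have h3 : 0 ≤ Real.sqrt b := Real.sqrt_nonneg b
  rw [h1, abs_mul, abs_of_nonneg (add_nonneg h2 h3), ← sq_abs, sq]
  refine mul_le_mul_of_nonneg_left ?_ (abs_nonneg _)
  rw [abs_le]
  constructor <;> linarith

/-- The multipliers. -/
noncomputable def mt (A : AMd P Q ε) (T : Str S) (γ t : G) (y : YY N) : ℝ := Real.sqrt (A.κ (fr T γ y) t)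

/-- continuity of the kernel on unitary matrices -/
theorem kap_cont (A : AMd P Q ε) (t : G) : ContinuousOn (fun k : MN N => A.κ k t) {k | IsU k} := by
  intro k0 hk0
  have hk0' : k0ᴴ * k0 = 1 := hk0
  by_cases ht : t ∈ A.supp
  · refine Metric.tendsto_nhds.mpr ?_
    intro e he
    obtain ⟨d', hd', hn⟩ := A.near (e / 2) (half_pos he)
    have hr2 : Tendsto (fun x : MN N => xᴴ * k0) (𝓝[{k | IsU k}] k0) (𝓝 (k0ᴴ * k0)) := by
      have hc : Continuous fun x : MN N => xᴴ * k0 := by fun_prop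
      exact (hc.tendsto _).mono_left nhdsWithin_le_nhds
    rw [hk0'] at hr2
    have hev : ∀ᶠ x : MN N in 𝓝[{k | IsU k}] k0, ∀ i j : Fin N, i < j → ‖(xᴴ * k0) i j‖ ≤ d' := by
      refine eventually_all.mpr fun i => eventually_all.mpr fun j => ?_
      by_cases hij : i < j
      · have h1 : Tendsto (fun x : MN N => (xᴴ * k0) i j) (𝓝[{k | IsU k}] k0) (𝓝 ((1 : MN N) i j)) :=
          ((continuous_apply j).tendsto _).comp (((continuous_apply i).tendsto _).comp hr2)
        rw [Matrix.one_apply_ne hij.ne] at h1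
        have h2 := h1.norm
        rw [norm_zero] at h2
        filter_upwards [h2.eventually (gt_mem_nhds hd')] with x hx _
        exact le_of_lt hx
      · exact Eventually.of_forall fun x h => absurd h hij
    filter_upwards [hev, self_mem_nhdsWithin] with x hx hx'
    have h3 := hn x k0 hx' hk0 hx
    have h4 := (Finset.single_le_sum (f := fun t => |A.κ x t - A.κ k0 t|)
      (fun _ _ => abs_nonneg _) ht).trans h3
    rw [Real.dist_eq]
    exact lt_of_le_of_lt h4 (half_lt_self he)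
  · have h1 : ∀ k, A.κ k t = 0 := fun k => A.off k t ht
    simp only [h1]
    exact continuousWithinAt_const

theorem hm_k (A : AMd P Q ε) {b : Fin N → ℕ} (hb : Monotone b) {k : MN N} (hk : IsU k) (t : G) :
    Pool.Agent.Helper90.RK.Hm b fun y => Real.sqrt (A.κ (k * ql (D b (colM y))) t) := by
  have hk' : kᴴ * k = 1 := hk
  refine ⟨?_, ⟨1, fun y => ?_⟩, ?_⟩
  · refine Real.continuous_sqrt.measurable.comp ?_
    let U : Set (Fin N → Fin N → ℂ) := {x | IsU (Matrix.of x)}
    have hc : Continuous fun x : U => A.κ (Matrix.of x.1) t :=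
      continuousOn_iff_continuous_restrict.mp (kap_cont A t)
    have hm : Measurable fun y : YY N => (⟨fun i j => (k * ql (D b (colM y))) i j,
        hk.mul (ql_unitary _)⟩ : U) := by
      refine Measurable.subtype_mk ?_
      refine measurable_pi_lambda _ fun i => measurable_pi_lambda _ fun j => ?_
      simp only [Matrix.mul_apply]
      exact Finset.measurable_sum _ fun l _ => (ql_meas b l j).const_mul _
    exact hc.measurable.comp hm
  · rw [abs_of_nonneg (Real.sqrt_nonneg _)]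
    exact Real.sqrt_le_one.mpr (A.kap_le_one (hk.mul (ql_unitary _)) t)
  · intro z hz y
    have e1 : D b (colM fun j => z * y j) = diagonal z * D b (colM y) := by
      rw [colM_scal, D_mul_left b (D_diagonal b z)]
    show Real.sqrt (A.κ (k * ql (D b (colM fun j => z * y j))) t) =
      Real.sqrt (A.κ (k * ql (D b (colM y))) t)
    rw [e1]
    by_cases hd : (D b (colM y)).det = 0
    · rw [ql_sing hd, ql_sing (by rw [Matrix.det_mul, hd, mul_zero])]
    · have hz' : (diagonal z).det ≠ 0 := by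
        rw [Matrix.det_diagonal]
        exact Finset.prod_ne_zero_iff.mpr fun i _ => hz.1 i
      have hq := ql_D hb (D_D b (colM y))
      congr 1
      refine A.kap_tri (hk.mul (ql_unitary _)) (hk.mul (ql_unitary _)) (fun i j hij => ?_) t
      have e2 : (k * ql (diagonal z * D b (colM y)))ᴴ * (k * ql (D b (colM y))) =
          (ql (diagonal z * D b (colM y)))ᴴ * ql (D b (colM y)) := by
        rw [Matrix.conjTranspose_mul, Matrix.mul_assoc, ← Matrix.mul_assoc kᴴ, hk', Matrix.one_mul]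
      have e3 : diagonal z * ql (D b (colM y)) = ql (D b (colM y)) * diagonal z := by
        ext p q
        rw [Matrix.diagonal_mul, Matrix.mul_diagonal]
        by_cases hpq : b p = b q
        · rw [hz.2 p q hpq, mul_comm]
        · have : ql (D b (colM y)) p q = 0 := by
            rw [← hq, D_apply, if_neg hpq]
          rw [this, mul_zero, zero_mul]
      have e4 := ql_rel (A := D b (colM y)) (M := diagonal z) hd hz' hij
      rw [Matrix.mul_assoc, e3, ← Matrix.mul_assoc, Matrix.mul_diagonal] at e4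
      rw [e2]
      exact (mul_eq_zero.mp e4).resolve_right (hz.1 j)

theorem mt_hm (A : AMd P Q ε) (T : Str S) (γ t : G) : Pool.Agent.Helper90.RK.Hm T.b (mt A T γ t) :=
  hm_k A T.mono (S.uR γ) t

theorem mt_sum (A : AMd P Q ε) (T : Str S) (γ : G) (y : YY N) : ∑ t ∈ A.supp, mt A T γ t y ^ 2 = 1 := by
  rw [← A.sum _ (fr_unitary T γ y)]
  exact Finset.sum_congr rfl fun t _ => Real.sq_sqrt (A.nonneg _ _)

theorem mt_left (A : AMd P Q ε) (T : Str S) (g : G) (n : ℕ) {ε' : ℝ} (hε' : 0 < ε') :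
    ∀ᶠ γ in T.F n, ∀ y : YY N, Gen T.b y →
      ∑ t ∈ A.supp, (mt A T γ t (fun k => T.C g 1 γ *ᵥ y k) - mt A T (g⁻¹ * γ * 1) t y) ^ 2 ≤ ε' := by
  obtain ⟨d', hd', hn⟩ := A.near ε' hε'
  obtain ⟨R, r, hr, hK⟩ := T.C_compact g 1
  obtain ⟨c, hc, hc1⟩ := Pool.Agent.Helper90.RK.iota_one P
  filter_upwards [(tendsto_upper T g 1 n).eventually (gt_mem_nhds hd'), hK n] with γ h1 h2 y hy
  have hC : T.C g 1 γ ∈ GLb T.b := Kb_sub T.b hr h2
  have h3 := hn (fr T γ fun k => T.C g 1 γ *ᵥ y k) (fr T (g⁻¹ * γ * 1) y) (fr_unitary T γ _)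
    (fr_unitary T _ y) (fun i j hij => by
      have h4 := fr_entries T g 1 γ hC hy hij
      rw [hc1, Matrix.mul_smul, Matrix.smul_mul, Matrix.smul_apply, norm_smul, hc, one_mul,
        mul_one] at h4
      exact h4.trans (le_of_lt h1))
  refine (Finset.sum_le_sum fun t _ => ?_).trans h3
  exact sqrt_sub_sq_le3 (A.nonneg _ _) (A.nonneg _ _)

theorem mt_right (A : AMd P Q ε) (T : Str S) {h : G} (hh : h ∈ Q) (n : ℕ) :
    ∀ᶠ γ in T.F n, ∀ y : YY N, Gen T.b y → ∀ s : Finset G,
      ∑ t ∈ s, (mt A T γ t (fun k => T.C 1 h γ *ᵥ y k) - mt A T (1⁻¹ * γ * h) (h⁻¹ * t) y) ^ 2 ≤ ε := by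
  obtain ⟨R, r, hr, hK⟩ := T.C_compact 1 h
  filter_upwards [(tendsto_upper T 1 h n).eventually (gt_mem_nhds A.dpos), hK n] with γ h1 h2 y hy s
  have hC : T.C 1 h γ ∈ GLb T.b := Kb_sub T.b hr h2
  have h3 := A.tri h hh (fr T γ fun k => T.C 1 h γ *ᵥ y k) (fr T (1⁻¹ * γ * h) y) (fr_unitary T γ _)
    (fr_unitary T _ y) (fun i j hij =>
      (fr_entries T 1 h γ hC hy hij).trans (le_of_lt h1)) s
  refine (Finset.sum_le_sum fun t _ => ?_).trans h3
  exact sqrt_sub_sq_le3 (A.nonneg _ _) (A.nonneg _ _)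

end Pool.Agent.Helper84.GN
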