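import Pool.Agent.Helper84.GN.I1
import Pool.Agent.Helper84.GN.I3

/-!
# Project RK, block I4: the multiplier data over a stratum (compare `NI/XC.lean`, `NI/XD.lean`)

`mo γ t = Ψ.mu (mt A T γ t)`. PROOFS. `mul_off`: `mt = 0` for `t ∉ supp`, `mu_zero` (see `FibM.mu_zero` in `NI/XC.lean`: `sq1` with `{1}` and `{1, 0}`). `mul_sum`: `sq1`, `mt_hm`, `mt_sum`.
`mul_cpt`: `f k = Ψ.mu (y ↦ √(κ (k * ql (D b (colM y))) t)) w` is continuous on the compact set of unitary matrices (`sq2` with one index and `near`; `(k q)ᴴ (k' q) = qᴴ (kᴴ k') q`, `q` unitary: as `kᴴ k' → 1` its entries above the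
diagonal are small uniformly in `q`: entries of `qᴴ (kᴴ k' - 1) q` are at most `∑ ‖(kᴴ k' - 1) i j‖`), see `mt_compact` in `NI/XC.lean`. `mul_left`, `mul_right`: `xd_point` in `NI/XD.lean`: `Ψ.equi` and `sq2`:
`∑ ‖mu m_t (π(C) f) - π(C) (mu m'_t f)‖^2 ≤ a ‖f‖^2` if `∑ (m_t (C y) - m'_t y)^2 ≤ a` for generic `y` (for generic `x` put `y = C⁻¹ x`, generic by `Gen_mulVec`, `GLb_inv`); with `mt_left`, `mt_right`, `T.C_compact`, `Kb_sub`.
-/

set_option autoImplicit false

open Filter Topology Matrix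

namespace Pool.Agent.Helper84.GN

open NI Pool.Agent.Helper90.RK

variable {G : Type} [Group G] {N : ℕ} {P : PH G N} {S : Sv P} {Q : Finset G} {ε : ℝ}
  {L : Type} [NormedAddCommGroup L] [InnerProductSpace ℂ L]

private theorem hm_const77 {b : Fin N → ℕ} (c : ℝ) :
    Pool.Agent.Helper90.RK.Hm b (fun _ : YY N => c) :=
  ⟨measurable_const, ⟨|c|, fun _ => le_rfl⟩, fun _ _ _ => rfl⟩

private theorem mu_zero77 {b : Fin N → ℕ} (Ψ : Pool.Agent.Helper90.RK.FibM b L) (f : L) :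
    Ψ.mu (fun _ => 0) f = 0 := by
  have h1 := Ψ.sq1 ({()} : Finset Unit) (fun _ _ => 1) (fun _ _ => hm_const77 1)
    (fun x _ => by simp) f
  have h2 := Ψ.sq1 (Finset.univ : Finset Bool) (fun b => if b then (fun _ => 1) else fun _ => 0) (by
      intro b _
      cases b
      · simpa using hm_const77 0
      · simpa using hm_const77 1) (fun x _ => by simp) f
  simp only [Finset.sum_singleton] at h1
  simp only [Fintype.sum_bool, if_true, Bool.false_eq_true, if_false] at h2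
  rw [h1] at h2
  have h3 : ‖Ψ.mu (fun _ => 0) f‖ ^ 2 = 0 := by linarith
  exact norm_eq_zero.1 (pow_eq_zero_iff (two_ne_zero)|>.1 h3)

private theorem mt_zero77 (T : Str S) (A : AMd P Q ε) (γ : G) {t : G} (ht : t ∉ A.supp) :
    mt A T γ t = fun _ => 0 := by
  funext y
  unfold mt
  rw [A.off _ _ ht, Real.sqrt_zero]

theorem mul_off (T : Str S) (Ψ : Pool.Agent.Helper90.RK.FibM T.b L) (A : AMd P Q ε) (γ t : G)
    (ht : t ∉ A.supp) : Ψ.mu (mt A T γ t) = 0 := by
  rw [mt_zero77 T A γ ht]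
  exact ContinuousLinearMap.ext fun f => mu_zero77 Ψ f

theorem mul_sum (T : Str S) (Ψ : Pool.Agent.Helper90.RK.FibM T.b L) (A : AMd P Q ε) (γ : G) (f : L) :
    ∑ t ∈ A.supp, ‖Ψ.mu (mt A T γ t) f‖ ^ 2 = ‖f‖ ^ 2 :=
  Ψ.sq1 A.supp (fun t => mt A T γ t) (fun t _ => mt_hm A T γ t) (fun y _ => mt_sum A T γ y) f

private theorem compactU77 : IsCompact {k : MN N | IsU k} := by
  have h1 : IsCompact (Set.univ.pi fun _ : Fin N => (Set.univ.pi fun _ : Fin N =>
      Metric.closedBall (0 : ℂ) 1)) :=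
    isCompact_univ_pi fun _ => isCompact_univ_pi fun _ => isCompact_closedBall 0 1
  have h2 : IsClosed {k : MN N | IsU k} := by
    have : Continuous fun k : MN N => kᴴ * k := by fun_prop
    exact isClosed_eq this continuous_const
  refine IsCompact.of_isClosed_subset h1 h2 ?_
  intro k hk
  refine Set.mem_univ_pi.2 fun i => Set.mem_univ_pi.2 fun j => ?_
  rw [mem_closedBall_zero_iff]
  exact norm_entry_le_one hk i j

private theorem sqrt_sub77 {a b : ℝ} (ha : 0 ≤ a) (hb : 0 ≤ b) :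
    (Real.sqrt a - Real.sqrt b) ^ 2 ≤ |a - b| := by
  have h1 : a - b = (Real.sqrt a - Real.sqrt b) * (Real.sqrt a + Real.sqrt b) := by
    have e1 := Real.sq_sqrt ha
    have e2 := Real.sq_sqrt hb
    nlinarith
  have h2 : |Real.sqrt a - Real.sqrt b| ≤ Real.sqrt a + Real.sqrt b := by
    rw [abs_le]
    constructor <;> linarith [Real.sqrt_nonneg a, Real.sqrt_nonneg b]
  rw [h1, abs_mul, ← sq_abs, sq, abs_of_nonneg (add_nonneg (Real.sqrt_nonneg a) (Real.sqrt_nonneg b))]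
  exact mul_le_mul_of_nonneg_left h2 (abs_nonneg _)

theorem mul_cpt (T : Str S) (Ψ : Pool.Agent.Helper90.RK.FibM T.b L) (A : AMd P Q ε) (t : G) (w : L) :
    ∃ K : Set L, IsCompact K ∧ ∀ γ, Ψ.mu (mt A T γ t) w ∈ K := by
  by_cases ht : t ∈ A.supp
  · refine ⟨(fun k : MN N => Ψ.mu (fun y => Real.sqrt (A.κ (k * ql (D T.b (colM y))) t)) w) ''
      {k : MN N | IsU k}, ?_, ?_⟩
    · refine compactU77.image_of_continuousOn ?_
      intro k0 hk0
      have hk0' : IsU k0 := hk0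
      refine Metric.tendsto_nhds.2 fun e he => ?_
      -- the allowed deviation
      set e1 : ℝ := (e / (‖w‖ + 1)) ^ 2 / 2 with he1
      have hw : 0 < ‖w‖ + 1 := by positivity
      have he1p : 0 < e1 := by positivity
      obtain ⟨d', hd', hn⟩ := A.near e1 he1p
      have hcont : ContinuousAt (fun k : MN N => ns (kᴴ * k0 - 1)) k0 := by
        have : Continuous fun k : MN N => ns (kᴴ * k0 - 1) := by
          unfold ns
          refine continuous_finsetSum _ fun i _ => continuous_finsetSum _ fun j _ => ?_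
          have h5 : Continuous fun k : MN N => (kᴴ * k0 - 1) i j := by
            have : Continuous fun k : MN N => kᴴ * k0 - 1 := by fun_prop
            exact this.matrix_elem i j
          exact h5.norm.pow 2
        exact this.continuousAt
      have hz : ns (k0ᴴ * k0 - 1) = 0 := by
        have : k0ᴴ * k0 = 1 := hk0'
        rw [this, sub_self]
        simp [ns]
      have hev : ∀ᶠ k in 𝓝[{k : MN N | IsU k}] k0, ns (kᴴ * k0 - 1) < d' ^ 2 := by
        have := hcont.tendsto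
        rw [hz] at this
        exact (this.eventually (gt_mem_nhds (by positivity))).filter_mono nhdsWithin_le_nhds
      filter_upwards [hev, self_mem_nhdsWithin] with k hk hkU
      have hkU' : IsU k := hkU
      have hmain : ∀ y : YY N,
          (Real.sqrt (A.κ (k * ql (D T.b (colM y))) t) -
            Real.sqrt (A.κ (k0 * ql (D T.b (colM y))) t)) ^ 2 ≤ e1 := by
        intro y
        have hr := ql_unitary (D T.b (colM y))
        set q := ql (D T.b (colM y)) with hq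
        refine (sqrt_sub77 (A.nonneg _ _) (A.nonneg _ _)).trans ?_
        have h6 := hn (k * q) (k0 * q) (hkU'.mul hr) (hk0'.mul hr) (by
          intro i j hij
          have h7 : ((k * q)ᴴ * (k0 * q)) i j = (qᴴ * (kᴴ * k0 - 1) * q) i j := by
            have h8 : qᴴ * (kᴴ * k0 - 1) * q = (k * q)ᴴ * (k0 * q) - 1 := by
              have hr' : qᴴ * q = 1 := hr
              rw [Matrix.conjTranspose_mul, Matrix.mul_sub, Matrix.sub_mul, Matrix.mul_one, hr']
              simp only [Matrix.mul_assoc]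
            rw [h8, Matrix.sub_apply, Matrix.one_apply_ne (ne_of_lt hij), sub_zero]
          rw [h7]
          have h9 := norm_apply_sq_le (qᴴ * (kᴴ * k0 - 1) * q) i j
          rw [ns_mul_unitary hr, ns_unitary_mul hr.star] at h9
          exact abs_le_of_sq_le_sq' (by linarith) hd'.le |>.2)
        exact (Finset.single_le_sum (f := fun t => |A.κ (k * q) t - A.κ (k0 * q) t|)
          (fun _ _ => abs_nonneg _) ht).trans h6
      have h10 := Ψ.sq2 ({()} : Finset Unit)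
        (fun _ y => Real.sqrt (A.κ (k * ql (D T.b (colM y))) t))
        (fun _ y => Real.sqrt (A.κ (k0 * ql (D T.b (colM y))) t)) e1
        (fun _ _ => hm_k A T.mono hkU' t)
        (fun _ _ => hm_k A T.mono hk0' t) (fun x _ => by simpa using hmain x) w
      simp only [Finset.sum_singleton] at h10
      rw [dist_eq_norm]
      refine lt_of_pow_lt_pow_left₀ 2 he.le (lt_of_le_of_lt h10 ?_)
      have h11 : ‖w‖ ^ 2 ≤ (‖w‖ + 1) ^ 2 := by
        have := norm_nonneg w
        nlinarith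
      calc e1 * ‖w‖ ^ 2 ≤ e1 * (‖w‖ + 1) ^ 2 := mul_le_mul_of_nonneg_left h11 he1p.le
        _ = e ^ 2 / 2 := by rw [he1]; field_simp
        _ < e ^ 2 := by nlinarith [pow_pos he 2]
    · intro γ
      exact ⟨S.kR γ, S.uR γ, rfl⟩
  · refine ⟨{0}, isCompact_singleton, fun γ => ?_⟩
    rw [mt_zero77 T A γ ht, mu_zero77]
    rfl

private theorem mulVec_scal77 {b : Fin N → ℕ} {C : MN N} (hC : D b C = C) {z : Fin N → ℂ}
    (hz : IsBs b z) (y : Fin N → ℂ) : C *ᵥ (z * y) = z * (C *ᵥ y) := by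
  funext i
  show ∑ k, C i k * (z k * y k) = z i * ∑ k, C i k * y k
  rw [Finset.mul_sum]
  refine Finset.sum_congr rfl fun k _ => ?_
  by_cases h : b i = b k
  · rw [hz.2 i k h]
    ring
  · have h1 : C i k = 0 := by
      rw [← hC, D_apply, if_neg h]
    rw [h1]
    ring

private theorem hm_comp77 {b : Fin N → ℕ} {m : YY N → ℝ} (hm : Pool.Agent.Helper90.RK.Hm b m)
    {C : MN N} (hC : D b C = C) : Pool.Agent.Helper90.RK.Hm b (fun y => m (fun j => C *ᵥ y j)) where
  meas := by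
    have h : Measurable fun y : YY N => (fun j => C *ᵥ y j : YY N) := by
      refine measurable_pi_lambda _ fun j => measurable_pi_lambda _ fun i => ?_
      show Measurable fun y : YY N => ∑ k, C i k * y j k
      exact Finset.measurable_sum _ fun k _ =>
        measurable_const.mul ((measurable_pi_apply k).comp (measurable_pi_apply j))
    exact hm.meas.comp h
  bdd := by
    obtain ⟨c, hc⟩ := hm.bdd
    exact ⟨c, fun y => hc _⟩
  hom := fun z hz y => by
    show m (fun j => C *ᵥ (z * y j)) = m (fun j => C *ᵥ y j)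
    have h : (fun j => C *ᵥ (z * y j)) = fun j => z * (C *ᵥ y j) :=
      funext fun j => mulVec_scal77 hC hz (y j)
    rw [h, hm.hom z hz]

private theorem point77 (T : Str S) (Ψ : Pool.Agent.Helper90.RK.FibM T.b L) (A : AMd P Q ε)
    {γ γ' : G} {C : MN N} (hC : C ∈ GLb T.b) (s : Finset G) (k : G → G) {a : ℝ}
    (h : ∀ y : YY N, Gen T.b y →
      ∑ t ∈ s, (mt A T γ t (fun j => C *ᵥ y j) - mt A T γ' (k t) y) ^ 2 ≤ a) (v : L) :
    ∑ t ∈ s, ‖Ψ.mu (mt A T γ t) (Ψ.Φ.π C v) - Ψ.Φ.π C (Ψ.mu (mt A T γ' (k t)) v)‖ ^ 2 ≤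
      a * ‖v‖ ^ 2 := by
  have hu : IsUnit C.det := isUnit_iff_ne_zero.2 hC.2
  have hCi : C⁻¹ ∈ GLb T.b := GLb_inv T.b hC
  have h1 := Ψ.sq2 s (fun t => mt A T γ t) (fun t y => mt A T γ' (k t) (fun j => C⁻¹ *ᵥ y j)) a
    (fun t _ => mt_hm A T γ t) (fun t _ => hm_comp77 (mt_hm A T γ' (k t)) hCi.1) (fun x hx => by
      have e1 : (fun j => C *ᵥ (C⁻¹ *ᵥ x j)) = x := by
        funext j
        rw [Matrix.mulVec_mulVec, Matrix.mul_nonsing_inv _ hu, Matrix.one_mulVec]
      have h2 := h (fun j => C⁻¹ *ᵥ x j) (Gen_mulVec hCi hx)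
      rw [e1] at h2
      exact h2) (Ψ.Φ.π C v)
  rw [LinearIsometryEquiv.norm_map] at h1
  refine le_trans (le_of_eq ?_) h1
  refine Finset.sum_congr rfl fun t _ => ?_
  rw [Ψ.equi _ C (mt_hm A T γ' (k t)) hC v]

private theorem C_mem77 (T : Str S) (g h : G) (n : ℕ) : ∀ᶠ γ in T.F n, T.C g h γ ∈ GLb T.b := by
  obtain ⟨R, r, hr, hc⟩ := T.C_compact g h
  filter_upwards [hc n] with γ hγ
  exact Kb_sub T.b hr hγ

theorem mul_left (T : Str S) (Ψ : Pool.Agent.Helper90.RK.FibM T.b L) (A : AMd P Q ε) (t g : G) (n : ℕ) (w : L) :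
    Tendsto (fun γ => Ψ.mu (mt A T γ t) (Ψ.Φ.π (T.C g 1 γ) w) -
      Ψ.Φ.π (T.C g 1 γ) (Ψ.mu (mt A T (g⁻¹ * γ * 1) t) w)) (T.F n) (𝓝 0) := by
  by_cases ht : t ∈ A.supp
  · refine Metric.tendsto_nhds.2 fun e he => ?_
    set e1 : ℝ := (e / (‖w‖ + 1)) ^ 2 / 2 with he1
    have hw : 0 < ‖w‖ + 1 := by positivity
    have he1p : 0 < e1 := by positivity
    filter_upwards [C_mem77 T g 1 n, mt_left A T g n he1p] with γ hγ h1
    have h2 := point77 T Ψ A hγ {t} id (a := e1) (γ := γ) (γ' := g⁻¹ * γ * 1) (fun y hy => by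
      rw [Finset.sum_singleton]
      exact (Finset.single_le_sum (f := fun t => (mt A T γ t (fun k => T.C g 1 γ *ᵥ y k) -
        mt A T (g⁻¹ * γ * 1) t y) ^ 2) (fun _ _ => sq_nonneg _) ht).trans (h1 y hy)) w
    rw [Finset.sum_singleton] at h2
    rw [dist_zero_right]
    refine lt_of_pow_lt_pow_left₀ 2 he.le (lt_of_le_of_lt h2 ?_)
    have h11 : ‖w‖ ^ 2 ≤ (‖w‖ + 1) ^ 2 := by
      have := norm_nonneg w
      nlinarith
    calc e1 * ‖w‖ ^ 2 ≤ e1 * (‖w‖ + 1) ^ 2 := mul_le_mul_of_nonneg_left h11 he1p.le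
      _ = e ^ 2 / 2 := by rw [he1]; field_simp
      _ < e ^ 2 := by nlinarith [pow_pos he 2]
  · have h1 : (fun γ => Ψ.mu (mt A T γ t) (Ψ.Φ.π (T.C g 1 γ) w) -
      Ψ.Φ.π (T.C g 1 γ) (Ψ.mu (mt A T (g⁻¹ * γ * 1) t) w)) = fun _ => 0 := by
      funext γ
      rw [mt_zero77 T A γ ht, mt_zero77 T A _ ht, mu_zero77, mu_zero77, map_zero, sub_zero]
    rw [h1]
    exact tendsto_const_nhds

theorem mul_right (T : Str S) (Ψ : Pool.Agent.Helper90.RK.FibM T.b L) (A : AMd P Q (ε ^ 2)) (h : G) (hh : h ∈ Q)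
    (n : ℕ) : ∀ᶠ γ in T.F n, ∀ (s : Finset G) (f : L),
      ∑ t ∈ s, ‖Ψ.mu (mt A T γ t) (Ψ.Φ.π (T.C 1 h γ) f) -
        Ψ.Φ.π (T.C 1 h γ) (Ψ.mu (mt A T (1⁻¹ * γ * h) (h⁻¹ * t)) f)‖ ^ 2 ≤ ε ^ 2 * ‖f‖ ^ 2 := by
  filter_upwards [C_mem77 T 1 h n, mt_right A T hh n] with γ hγ h1
  intro s f
  exact point77 T Ψ A hγ s (fun t => h⁻¹ * t) (fun y hy => h1 y hy s) f

/-- The multiplier data over a stratum. -/
theorem exists_Mul (T : Str S) (Ψ : Pool.Agent.Helper90.RK.FibM T.b L) (Q : Finset G) (ε : ℝ) (hε : 0 < ε) :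
    Nonempty (Mul (toCoc T Ψ) Q ε) := by
  obtain ⟨A⟩ := exists_AMd P Q (pow_pos hε 2)
  exact ⟨{
    supp := A.supp
    mo := fun γ t => Ψ.mu (mt A T γ t)
    off := mul_off T Ψ A
    sum := mul_sum T Ψ A
    cpt := mul_cpt T Ψ A
    left := mul_left T Ψ A
    right := mul_right T Ψ A }⟩

end Pool.Agent.Helper84.GN
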