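import Pool.Agent.Helper84.GN.SX
import Pool.Agent.Helper84.NI.HU
import Pool.Agent.Helper84.NI.F3
import Pool.Agent.Helper84.NI.ZA
import Pool.Agent.Helper90.RK.NonAmDef

/-!
# Project GN / RK, block Esc: the escape lemma

PROOFS. `ext_zet`: as in `zet_cv` of `NI/ZA.lean` (`ext_kop`, `za_left`): `ext (Alim G) E l (zet w)` is the class of `w n (E.U l (dl 1)) = E.U l (w n (dl 1))`.
`escape`: suppose `ε < ‖UP.map (ind (W n)) ζ_l‖` for all `l`, `ζ_l = ext (AU R) E l ζ`. By `inner_TL_TR`, `Γ.nonneg`, `Γ.pos n` (constant `c`): `Re ⟪TL ζ_l, TR ζ_l⟫ = Re ⟪ζ_l, Ψ ζ_l⟫ ≥ c ‖UP.map (ind (W n)) ζ_l‖^2 ≥ c ε^2`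
(multiplication by a function `f` with `Re f ≥ c 1_{W n}`; pass to the ultrapower with `UP.induction`, see `wh_compare` and `wh_mulop` in `NI/WH.lean`). So `hull` (`NI/HU.lean`, with `TL`, `TR`, `TR_A`, `TL_B`, `comm2_V`) gives
`η ≠ 0` central and bounded in `Vp`, and `almost_inv` (`NI/F3.lean`, with `apx Γ hD`) contradicts `NonAm Λ`.
`escape_seq`: `ζ = zet w`, `z = Ppr R ζ ≠ 0`, central (`IsCV.map`, `zet_cv`). `β = ‖z‖ / 4`. Given `s`, `m`: `escape` with `ε = ‖z‖ / 2` (note `‖z‖ ≤ 1`) gives `l`, `z_l = ext (AU R) E l z = Ppr R ζ_l` (`map_ext`), `ζ_l = zet (w n * U_l)`,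
`‖z_l‖ = ‖z‖` (`norm_ext`), `‖z_l‖^2 = Re ⟪z_l, ζ_l⟫` (`inner_Ppr`) `= Re ⟪ind s z_l, ζ_l⟫` (`Ua_ind`) `= Re ⟪ind (s ∩ W m) z_l, ζ_l⟫ + Re ⟪z_l, ind (s \ W m) ζ_l⟫ ≤ (‖z‖ / 2) ‖ζ_l‖ + ...`. To get constants right: choose
`ε = ‖z‖^2 / 2`: then `‖z‖^2 / 2 ≤ ‖z‖ ‖ind (s \ W m) ζ_l‖`, so `‖ind (s \ W m) ζ_l‖ ≥ ‖z‖ / 2`, and `UP.tendsto_norm` gives an index `n` (the filter is not `⊥`) with `‖ind (s \ W m) (cf (w n * U_l))‖ ≥ ‖z‖ / 4`.
-/

set_option autoImplicit false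

open Filter Topology Matrix

namespace Pool.Agent.Helper84.GN

open NI GVN Pool.Agent.Helper90.RK

variable {G Λ : Type} [Group G] [Group Λ] {R : Reg G} {L : Type} [NormedAddCommGroup L]
  [InnerProductSpace ℂ L] [CompleteSpace L]

/-- A sequence of unitaries as an operator with values in the limit space. -/
private noncomputable def escOp (T : ℕ → (L2 G ≃ₗᵢ[ℂ] L2 G)) : L2 G →L[ℂ] UP (L2 G) :=
  LinearMap.mkContinuous
    { toFun := fun f => UP.mk ⟨fun n => T n f, ‖f‖, fun n => (LinearIsometryEquiv.norm_map _ _).le⟩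
      map_add' := fun f g => by
        rw [← UP.mk_add]
        congr 1
        exact Subtype.ext (funext fun n => map_add (T n) f g)
      map_smul' := fun c f => by
        rw [RingHom.id_apply, ← UP.mk_smul]
        congr 1
        exact Subtype.ext (funext fun n => map_smul (T n) c f) } 1 (by
    intro f
    rw [one_mul]
    exact UP.norm_mk_le _ fun n => (LinearIsometryEquiv.norm_map (T n) f).le)

omit [Group G] in
private theorem escOp_apply (T : ℕ → (L2 G ≃ₗᵢ[ℂ] L2 G)) (f : L2 G) :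
    escOp T f = UP.mk ⟨fun n => T n f, ‖f‖, fun n => (LinearIsometryEquiv.norm_map _ _).le⟩ := rfl

omit [Group G] in
private theorem esc_mk_congr {x y : BSeq (L2 G)} (h : ∀ n, x.1 n = y.1 n) : UP.mk x = UP.mk y := by
  congr 1
  exact Subtype.ext (funext h)

private theorem esc_left {w : ℕ → (L2 G ≃ₗᵢ[ℂ] L2 G)} (hw : ∀ n, CommR (w n)) (g : G) :
    escOp (fun n => jjU (w n)⁻¹) (dl g) = Alim G g (zet w) := by
  rw [escOp_apply]
  unfold zet Alim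
  rw [UP.rep_apply, UP.map_mk]
  exact esc_mk_congr fun n => jj_dl (hw n) g

theorem ext_zet {w : ℕ → (L2 G ≃ₗᵢ[ℂ] L2 G)} (hw : ∀ n, CommR (w n)) (E : Emb Λ G)
    (hc : ∀ n l f, w n (E.U l f) = E.U l (w n f)) (l : Λ) :
    ext (Alim G) E l (zet w) = zet fun n => w n * E.U l := by
  rw [ext_kop E l (zet_cv hw E hc).bA (esc_left hw), escOp_apply]
  refine esc_mk_congr fun n => ?_
  change jjU (w n)⁻¹ (E.U l (dl 1)) = w n (E.U l (dl 1))
  rw [jj_comm (E.comm l) (commR_inv (hw n)), jj_dl (hw n), lamU_one, hc]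
  rfl

omit [Group G] in
private theorem esc_mulop {f : G → ℂ} (hf : ∀ γ, ‖f γ‖ ≤ 1) (x : L2 G) :
    HasSum (fun γ => (f γ).re * ‖x γ‖ ^ 2) (inner ℂ x (mulop f x)).re := by
  have h1 : HasSum (fun γ => inner ℂ (x γ) (mulop f x γ)) (inner ℂ x (mulop f x)) :=
    lv_inner x (mulop f x)
  have h2 := Complex.reCLM.hasSum h1
  have h3 : (fun γ => Complex.reCLM (inner ℂ (x γ) (mulop f x γ))) =
      fun γ => (f γ).re * ‖x γ‖ ^ 2 := by
    funext γ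
    have hC : ∀ (i : G) (y : ℂ), ‖(f i • ContinuousLinearMap.id ℂ ℂ) y‖ ≤ 1 * ‖y‖ := by
      intro i y
      rw [_root_.smul_apply, ContinuousLinearMap.id_apply, norm_smul]
      exact mul_le_mul_of_nonneg_right (hf i) (norm_nonneg _)
    have h4 : mulop f x γ = f γ * x γ := by
      unfold mulop
      rw [dg_apply hC, _root_.smul_apply, ContinuousLinearMap.id_apply, smul_eq_mul]
    rw [h4]
    change (inner ℂ (x γ) (f γ * x γ) : ℂ).re = _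
    rw [← smul_eq_mul, inner_smul_right, inner_self_eq_norm_sq_to_K]
    have : ((‖x γ‖ : ℂ)) ^ 2 = ((‖x γ‖ ^ 2 : ℝ) : ℂ) := by push_cast; rfl
    change (f γ * ((‖x γ‖ : ℂ)) ^ 2).re = _
    rw [this, Complex.re_mul_ofReal]
  rw [h3] at h2
  exact h2

omit [Group G] in
/-- A multiplication operator that is at least `c` on `W`. -/
private theorem esc_lower {f : G → ℂ} (hf : ∀ γ, ‖f γ‖ ≤ 1) {W : Set G} {c : ℝ} (h0 : ∀ γ, 0 ≤ (f γ).re)
    (h : ∀ γ ∈ W, c ≤ (f γ).re) (b : UP (L2 G)) :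
    c * ‖UP.map (ind ℂ W) b‖ ^ 2 ≤ (inner ℂ b (UP.map (mulop f) b)).re := by
  classical
  refine UP.induction (p := fun b => c * ‖UP.map (ind ℂ W) b‖ ^ 2 ≤
    (inner ℂ b (UP.map (mulop f) b)).re) b ?_ (fun x => ?_)
  · refine isClosed_le ?_ ?_
    · exact continuous_const.mul ((UP.map (ind ℂ W)).continuous.norm.pow 2)
    · exact Complex.continuous_re.comp (continuous_id.inner (UP.map (mulop f)).continuous)
  · have t1 := (Complex.continuous_re.tendsto _).comp (UP.tendsto_inner x (BSeq.map (mulop f) x))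
    have t3 := ((UP.tendsto_norm (BSeq.map (ind ℂ W) x)).pow 2).const_mul c
    rw [UP.map_mk, UP.map_mk]
    refine le_of_tendsto_of_tendsto' t3 t1 fun n => ?_
    change c * ‖ind ℂ W (x.1 n)‖ ^ 2 ≤ (inner ℂ (x.1 n) (mulop f (x.1 n))).re
    have s1 := esc_mulop hf (x.1 n)
    have s3 := (lv_hasSum (ind ℂ W (x.1 n))).mul_left c
    refine hasSum_le (fun γ => ?_) s3 s1
    rw [ind_apply]
    by_cases hγ : γ ∈ W
    · rw [if_pos hγ]
      exact mul_le_mul_of_nonneg_right (h γ hγ) (sq_nonneg _)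
    · rw [if_neg hγ, norm_zero, zero_pow two_ne_zero, mul_zero]
      exact mul_nonneg (h0 γ) (sq_nonneg _)

theorem escape (Γ : Coc R L) (hD : ∀ (Q : Finset G) (ε : ℝ), 0 < ε → Nonempty (Mul Γ Q ε))
    {E : Emb Λ G} (hΛ : NonAm Λ) {ζ : R.Ua} (hζ : IsCV (AU R) (BU R) E ζ) (h0 : ζ ≠ 0) (n : ℕ)
    {ε : ℝ} (hε : 0 < ε) :
    ∃ l : Λ, ‖UP.map (ind ℂ (R.W n)) ((ext (AU R) E l ζ : R.Ua) : UP (L2 G))‖ ≤ ε := by
  by_contra hne
  push Not at hne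
  obtain ⟨c, hc, hpos⟩ := Γ.pos n
  have hc1 : 0 < c * ε ^ 2 := by positivity
  obtain ⟨η, h1, h2, h3, h4⟩ := hull (comm2_V Γ) (TL Γ) (TR Γ) (TR_A Γ) (TL_B Γ) hζ hc1 (fun l => by
    rw [inner_TL_TR]
    refine le_trans ?_ (esc_lower (W := R.W n) (c := c) (fun γ => ?_) (fun γ => Γ.nonneg γ)
      (fun γ hγ => hpos γ hγ) _)
    · exact mul_le_mul_of_nonneg_left (pow_le_pow_left₀ hε.le (hne l).le 2) hc.le
    · refine (norm_inner_le_norm _ _).trans ?_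
      rw [Γ.nvX, Γ.nv, mul_one])
  obtain ⟨F, ε₀, hε₀, hF⟩ := hΛ
  obtain ⟨q, hq, hq2⟩ := almost_inv (comm2_V Γ) h1 h2 h3 h4 (apx Γ hD) F (half_pos hε₀)
  obtain ⟨g, hg, hg2⟩ := hF q hq
  have h5 := hq2 g hg
  linarith

theorem escape_seq (Γ : Coc R L) (hD : ∀ (Q : Finset G) (ε : ℝ), 0 < ε → Nonempty (Mul Γ Q ε))
    {E : Emb Λ G} (hΛ : NonAm Λ) {w : ℕ → (L2 G ≃ₗᵢ[ℂ] L2 G)} (hw : ∀ n, CommR (w n))
    (hc : ∀ n l f, w n (E.U l f) = E.U l (w n f)) (hne : Ppr R (zet w) ≠ 0) :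
    ∃ β : ℝ, 0 < β ∧ ∀ (s : Set G), (∀ n, s ∈ R.F n) → ∀ m : ℕ, ∃ (n : ℕ) (l : Λ),
      β ≤ ‖ind ℂ (s \ R.W m) (cf (w n * E.U l))‖ := by
  classical
  have hcv : IsCV (AU R) (BU R) E (Ppr R (zet w)) :=
    (zet_cv hw E hc).map (norm_Ppr R) (Ppr_A R) (Ppr_B R)
  set z : R.Ua := Ppr R (zet w) with hz
  have hzn : 0 < ‖z‖ := norm_pos_iff.2 hne
  refine ⟨‖z‖ / 4, by positivity, fun s hs m => ?_⟩
  obtain ⟨l, hl⟩ := escape Γ hD hΛ hcv hne m (ε := ‖z‖ ^ 2 / 2) (by positivity)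
  set zl : R.Ua := ext (AU R) E l z with hzl
  set ζl : UP (L2 G) := zet fun n => w n * E.U l with hζl
  have e1 : zl = Ppr R ζl := by
    rw [hzl, hz, ← map_ext (T := Ppr R) (Ppr_A R) E l (zet w), ext_zet hw E hc]
  have n1 : ‖zl‖ = ‖z‖ := norm_ext E l hcv.bA.mem_VB
  have n2 : ‖(zl : UP (L2 G))‖ = ‖z‖ := n1
  have n3 : ‖ζl‖ = 1 := norm_zet _
  have i1 : (inner ℂ (zl : UP (L2 G)) ζl : ℂ).re = ‖z‖ ^ 2 := by
    rw [inner_Ppr R ζl zl, ← e1, ← n1]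
    exact (norm_sq_eq_re_inner (𝕜 := ℂ) zl).symm
  have hsplit : ind ℂ s = ind ℂ (s ∩ R.W m) + ind ℂ (s \ R.W m) := by
    ext1 x
    apply lv_ext
    intro i
    rw [_root_.add_apply, lp.coeFn_add, Pi.add_apply, ind_apply, ind_apply, ind_apply]
    by_cases h4 : i ∈ R.W m <;> by_cases h5 : i ∈ s <;> simp [h4, h5]
  have i2 : (inner ℂ (zl : UP (L2 G)) ζl : ℂ) =
      inner ℂ (UP.map (ind ℂ (s ∩ R.W m)) (zl : UP (L2 G))) ζl +
        inner ℂ (zl : UP (L2 G)) (UP.map (ind ℂ (s \ R.W m)) ζl) := by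
    conv_lhs => rw [← Ua_ind R hs zl.2]
    rw [inner_ind, hsplit, UP.map_add, inner_add_right, ← inner_ind (s ∩ R.W m)]
  have b1 : (inner ℂ (UP.map (ind ℂ (s ∩ R.W m)) (zl : UP (L2 G))) ζl : ℂ).re ≤ ‖z‖ ^ 2 / 2 := by
    refine (Complex.re_le_norm _).trans ((norm_inner_le_norm _ _).trans ?_)
    rw [n3, mul_one, ← ind_ind]
    exact (norm_ind_le _ _).trans hl
  have b2 : (inner ℂ (zl : UP (L2 G)) (UP.map (ind ℂ (s \ R.W m)) ζl) : ℂ).re ≤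
      ‖z‖ * ‖UP.map (ind ℂ (s \ R.W m)) ζl‖ := by
    refine (Complex.re_le_norm _).trans ((norm_inner_le_norm _ _).trans ?_)
    rw [n2]
  have b3 : ‖z‖ / 2 ≤ ‖UP.map (ind ℂ (s \ R.W m)) ζl‖ := by
    rw [i2, Complex.add_re] at i1
    have : ‖z‖ * (‖z‖ / 2) ≤ ‖z‖ * ‖UP.map (ind ℂ (s \ R.W m)) ζl‖ := by
      nlinarith
    exact le_of_mul_le_mul_left this hzn
  have b4 : ‖z‖ / 4 < ‖UP.map (ind ℂ (s \ R.W m)) ζl‖ := by linarith
  rw [hζl] at b4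
  unfold zet at b4
  rw [UP.map_mk] at b4
  obtain ⟨n, hn⟩ := ((UP.tendsto_norm (BSeq.map (ind ℂ (s \ R.W m))
    ⟨fun n => cf (w n * E.U l), 1, fun n => (norm_cf (w n * E.U l)).le⟩)).eventually
    (lt_mem_nhds b4)).exists
  exact ⟨n, l, hn.le⟩

end Pool.Agent.Helper84.GN
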