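import Pool.Agent.Helper84.GN.SX
import Pool.Agent.Helper84.NI.HU
import Pool.Agent.Helper84.NI.TI
import Pool.Agent.Helper84.NI.F4
import Pool.Agent.Helper84.NI.ZA

/-!
# Project RK, block TT: property (T) over strata whose Levi part has the Haagerup property (compare `NI/WG.lean`, `NI/WH.lean`)

PROOF of `no_T` (adapt `wall_tight` of `NI/WG.lean` and `wall_central` of `NI/WH.lean`). Let `δ > 0` with `1/2 ≤ 1 - δ - 4 δ / κ`, `z_l = ext (AU R) E l ζ` (`‖z_l‖ ≤ ‖ζ‖`, `norm_ext_le`). The finitely many vectors `ζ`, `z_q` (`q ∈ Q`)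
are approximated (error `δ'`) by vectors `b` carried by `W n` for one `n` (`R.Ua` is the closure of the span of the vectors carried by all sets of `R.F n`, and `R.W n ∈ R.F n` by `R.le`; `R.monoF`). Take `Γ'` from `Haag R` for
this `n` and `δ'`: `ψ γ = Re ⟪vX γ, v⟫ ∈ [1 - δ', 1]` on `W n`. `‖TL z - TR z‖^2 = 2 ‖z‖^2 - 2 Re ⟪TL z, TR z⟫ = 2 Re ⟪z, (1 - Ψ) z⟫` is small for these vectors (`inner_TL_TR`; `|1 - ψ| ≤ 2`), so `tight` gives
`‖ζ‖^2 / 2 ≤ Re ⟪TL' z_l, TR' z_l⟫ = Re ⟪z_l, Ψ z_l⟫` for ALL `l`. With `n'` from `Haag R` for `ε = 1/4` and `c` from `Γ.pos n'`: `ψ ≤ 1/4 + (1/c) Re ⟪Γ.vX γ, Γ.v⟫` everywhere (`Γ.nonneg`), so (`wh_compare` in `NI/WH.lean`)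
`‖ζ‖^2 / 2 ≤ ‖z_l‖^2 / 4 + (1/c) Re ⟪TL z_l, TR z_l⟫`, hence `Re ⟪TL z_l, TR z_l⟫ ≥ c ‖ζ‖^2 / 4` for all `l`; `hull` and `no_central` (`apx Γ hD`) give a contradiction.
-/

set_option autoImplicit false

open Filter Topology Matrix

namespace Pool.Agent.Helper84.GN

open NI GVN

variable {G Λ : Type} [Group G] [Group Λ] {R : Reg G}

/-- The Levi part of the stratum has the Haagerup property: there are fields of unitaries with `⟪vX γ, v⟫` close to one on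
`W n` and tending to zero outside the regions. -/
def Haag (R : Reg G) : Prop :=
  ∀ (n : ℕ) (δ : ℝ), 0 < δ → ∃ (L : Type) (_ : NormedAddCommGroup L) (_ : InnerProductSpace ℂ L)
    (_ : CompleteSpace L) (Γ : Coc R L), (∀ γ ∈ R.W n, 1 - δ ≤ (inner ℂ (Γ.vX γ) Γ.v : ℂ).re) ∧
      ∀ ε : ℝ, 0 < ε → ∃ n' : ℕ, ∀ γ, γ ∉ R.W n' → (inner ℂ (Γ.vX γ) Γ.v : ℂ).re ≤ ε

omit [Group G] in
private theorem tt_mulop {f : G → ℂ} (hf : ∀ γ, ‖f γ‖ ≤ 1) (x : L2 G) :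
    HasSum (fun γ => (f γ).re * ‖x γ‖ ^ 2) (inner ℂ x (mulop f x)).re := by
  have h1 : HasSum (fun γ => inner ℂ (x γ) (mulop f x γ)) (inner ℂ x (mulop f x)) :=
    lv_inner x (mulop f x)
  have h2 := Complex.reCLM.hasSum h1
  have h3 : (fun γ => Complex.reCLM (inner ℂ (x γ) (mulop f x γ))) =
      fun γ => (f γ).re * ‖x γ‖ ^ 2 := by
    funext γ
    have hC : ∀ (i : G) (y : ℂ), ‖(f i • ContinuousLinearMap.id ℂ ℂ) y‖ ≤ 1 * ‖y‖ := by
      intro i y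
      rw [_root_.smul_apply, ContinuousLinearMap.id_apply, norm_smul]
      exact mul_le_mul_of_nonneg_right (hf i) (norm_nonneg _)
    have h4 : mulop f x γ = f γ * x γ := by
      unfold mulop
      rw [dg_apply hC, _root_.smul_apply, ContinuousLinearMap.id_apply, smul_eq_mul]
    rw [h4]
    change (inner ℂ (x γ) (f γ * x γ) : ℂ).re = _
    rw [← smul_eq_mul, inner_smul_right, inner_self_eq_norm_sq_to_K]
    have : ((‖x γ‖ : ℂ)) ^ 2 = ((‖x γ‖ ^ 2 : ℝ) : ℂ) := by push_cast; rfl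
    change (f γ * ((‖x γ‖ : ℂ)) ^ 2).re = _
    rw [this, Complex.re_mul_ofReal]
  rw [h3] at h2
  exact h2

omit [Group G] in
private theorem tt_compare {f β : G → ℂ} (hf : ∀ γ, ‖f γ‖ ≤ 1) (hβ : ∀ γ, ‖β γ‖ ≤ 1) {ε C : ℝ}
    (h : ∀ γ, (f γ).re ≤ ε + C * (β γ).re) (b : UP (L2 G)) :
    (inner ℂ b (UP.map (mulop f) b)).re ≤ ε * ‖b‖ ^ 2 + C * (inner ℂ b (UP.map (mulop β) b)).re := by
  refine UP.induction (p := fun b => (inner ℂ b (UP.map (mulop f) b)).re ≤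
    ε * ‖b‖ ^ 2 + C * (inner ℂ b (UP.map (mulop β) b)).re) b ?_ (fun x => ?_)
  · refine isClosed_le ?_ ?_
    · exact Complex.continuous_re.comp (continuous_id.inner (UP.map (mulop f)).continuous)
    · exact (continuous_const.mul (continuous_norm.pow 2)).add (continuous_const.mul
        (Complex.continuous_re.comp (continuous_id.inner (UP.map (mulop β)).continuous)))
  · have t1 := (Complex.continuous_re.tendsto _).comp (UP.tendsto_inner x (BSeq.map (mulop f) x))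
    have t2 := (Complex.continuous_re.tendsto _).comp (UP.tendsto_inner x (BSeq.map (mulop β) x))
    have t3 := ((UP.tendsto_norm x).pow 2).const_mul ε
    have t4 := t3.add (t2.const_mul C)
    rw [UP.map_mk, UP.map_mk]
    refine le_of_tendsto_of_tendsto' t1 t4 fun n => ?_
    change (inner ℂ (x.1 n) (mulop f (x.1 n))).re ≤
      ε * ‖x.1 n‖ ^ 2 + C * (inner ℂ (x.1 n) (mulop β (x.1 n))).re
    have s1 := tt_mulop hf (x.1 n)
    have s2 := tt_mulop hβ (x.1 n)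
    have s3 := (lv_hasSum (x.1 n)).mul_left ε
    refine hasSum_le (fun γ => ?_) s1 (s3.add (s2.mul_left C))
    have h0 : 0 ≤ ‖x.1 n γ‖ ^ 2 := sq_nonneg _
    have h1 := mul_le_mul_of_nonneg_right (h γ) h0
    linarith

omit [Group G] in
/-- A multiplication operator that is at least `c` on `W`. -/
private theorem tt_lower {f : G → ℂ} (hf : ∀ γ, ‖f γ‖ ≤ 1) {W : Set G} {c : ℝ} (h0 : ∀ γ, 0 ≤ (f γ).re)
    (h : ∀ γ ∈ W, c ≤ (f γ).re) (b : UP (L2 G)) :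
    c * ‖UP.map (ind ℂ W) b‖ ^ 2 ≤ (inner ℂ b (UP.map (mulop f) b)).re := by
  classical
  refine UP.induction (p := fun b => c * ‖UP.map (ind ℂ W) b‖ ^ 2 ≤
    (inner ℂ b (UP.map (mulop f) b)).re) b ?_ (fun x => ?_)
  · refine isClosed_le ?_ ?_
    · exact continuous_const.mul ((UP.map (ind ℂ W)).continuous.norm.pow 2)
    · exact Complex.continuous_re.comp (continuous_id.inner (UP.map (mulop f)).continuous)
  · have t1 := (Complex.continuous_re.tendsto _).comp (UP.tendsto_inner x (BSeq.map (mulop f) x))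
    have t3 := ((UP.tendsto_norm (BSeq.map (ind ℂ W) x)).pow 2).const_mul c
    rw [UP.map_mk, UP.map_mk]
    refine le_of_tendsto_of_tendsto' t3 t1 fun n => ?_
    change c * ‖ind ℂ W (x.1 n)‖ ^ 2 ≤ (inner ℂ (x.1 n) (mulop f (x.1 n))).re
    have s1 := tt_mulop hf (x.1 n)
    have s3 := (lv_hasSum (ind ℂ W (x.1 n))).mul_left c
    refine hasSum_le (fun γ => ?_) s3 s1
    rw [ind_apply]
    by_cases hγ : γ ∈ W
    · rw [if_pos hγ]
      exact mul_le_mul_of_nonneg_right (h γ hγ) (sq_nonneg _)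
    · rw [if_neg hγ, norm_zero, zero_pow two_ne_zero, mul_zero]
      exact mul_nonneg (h0 γ) (sq_nonneg _)

private theorem tt_F_le {m n : ℕ} (h : m ≤ n) : R.F m ≤ R.F n := by
  induction n, h using Nat.le_induction with
  | base => exact le_rfl
  | succ n _ ih => exact ih.trans (R.monoF n)

/-- A vector of the span is carried by `W n` for all large `n`. -/
private theorem tt_span {b : UP (L2 G)} (hb : b ∈ Submodule.span ℂ R.UaSet) :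
    ∃ N : ℕ, ∀ n, N ≤ n → UP.map (ind ℂ (R.W n)) b = b := by
  induction hb using Submodule.span_induction with
  | mem x hx =>
    obtain ⟨N, hN⟩ := hx
    exact ⟨N, fun n hn => hN _ ((tt_F_le hn).trans (R.le n) (mem_principal_self _))⟩
  | zero => exact ⟨0, fun n _ => by rw [_root_.map_zero]⟩
  | add x y _ _ hx hy =>
    obtain ⟨N, hN⟩ := hx
    obtain ⟨M, hM⟩ := hy
    refine ⟨max N M, fun n hn => ?_⟩
    rw [_root_.map_add, hN n ((le_max_left _ _).trans hn), hM n ((le_max_right _ _).trans hn)]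
  | smul c x _ hx =>
    obtain ⟨N, hN⟩ := hx
    exact ⟨N, fun n hn => by rw [_root_.map_smul, hN n hn]⟩

/-- The vectors of `Ua` are almost carried by `W n` for all large `n`. -/
private theorem tt_carried (a : R.Ua) {ε : ℝ} (hε : 0 < ε) :
    ∀ᶠ n in (atTop : Filter ℕ), ‖a‖ - ε ≤ ‖UP.map (ind ℂ (R.W n)) (a : UP (L2 G))‖ := by
  have ha : (a : UP (L2 G)) ∈ closure ((Submodule.span ℂ R.UaSet : Submodule ℂ (UP (L2 G))) :
    Set (UP (L2 G))) := a.2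
  obtain ⟨b, hb, hab⟩ := Metric.mem_closure_iff.1 ha (ε / 2) (by positivity)
  obtain ⟨N, hN⟩ := tt_span hb
  filter_upwards [eventually_ge_atTop N] with n hn
  have e1 : (a : UP (L2 G)) = ((a : UP (L2 G)) - b) + UP.map (ind ℂ (R.W n)) (b - (a : UP (L2 G))) +
      UP.map (ind ℂ (R.W n)) (a : UP (L2 G)) := by
    rw [_root_.map_sub, hN n hn]
    abel
  rw [dist_eq_norm] at hab
  have h1 : ‖UP.map (ind ℂ (R.W n)) (b - (a : UP (L2 G)))‖ < ε / 2 := by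
    refine lt_of_le_of_lt (norm_ind_le _ _) ?_
    rw [norm_sub_rev]
    exact hab
  have h2 : ‖(a : UP (L2 G))‖ ≤ ‖(a : UP (L2 G)) - b‖ + ‖UP.map (ind ℂ (R.W n)) (b - (a : UP (L2 G)))‖ +
      ‖UP.map (ind ℂ (R.W n)) (a : UP (L2 G))‖ := by
    conv_lhs => rw [e1]
    exact (norm_add_le _ _).trans (add_le_add (norm_add_le _ _) le_rfl)
  have h3 : ‖a‖ = ‖(a : UP (L2 G))‖ := rfl
  rw [h3]
  linarith

theorem no_T (hH : Haag R) {L : Type} [NormedAddCommGroup L] [InnerProductSpace ℂ L] [CompleteSpace L]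
    (Γ : Coc R L) (hD : ∀ (Q : Finset G) (ε : ℝ), 0 < ε → Nonempty (Mul Γ Q ε)) [Infinite Λ]
    {Q : Finset Λ} {κ : ℝ} (hK : IsKazhdanPair Λ (Q : Set Λ) κ) {E : Emb Λ G} {ζ : R.Ua}
    (hζ : IsCV (AU R) (BU R) E ζ) (h0 : ζ ≠ 0) : False := by
  classical
  have hκ : 0 < κ := hK.1
  have hζ0 : 0 < ‖ζ‖ := norm_pos_iff.2 h0
  obtain ⟨δ, hδ, hδ'⟩ : ∃ δ : ℝ, 0 < δ ∧ 1 / 2 ≤ 1 - δ - 4 * δ / κ := by
    refine ⟨1 / (2 * (1 + 4 / κ)), by positivity, ?_⟩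
    have : 1 / (2 * (1 + 4 / κ)) + 4 * (1 / (2 * (1 + 4 / κ))) / κ = 1 / 2 := by
      field_simp
    linarith
  -- the choice of `n`
  have hε : 0 < δ ^ 2 / 8 * ‖ζ‖ := by positivity
  have hall : ∀ᶠ n in (atTop : Filter ℕ), ∀ q ∈ Q, ‖ext (AU R) E q ζ‖ - δ ^ 2 / 8 * ‖ζ‖ ≤
      ‖UP.map (ind ℂ (R.W n)) ((ext (AU R) E q ζ : R.Ua) : UP (L2 G))‖ := by
    rw [Filter.eventually_all_finset]
    intro q _
    exact tt_carried _ hε
  obtain ⟨n, hnQ, hnζ⟩ := (hall.and (tt_carried ζ hε)).exists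
  obtain ⟨L', i1, i2, i3, Γ', hΓ1, hΓ2⟩ := hH n (δ ^ 2 / 4) (by positivity)
  have hb' : ∀ γ, ‖(inner ℂ (Γ'.vX γ) Γ'.v : ℂ)‖ ≤ 1 := by
    intro γ
    refine (norm_inner_le_norm _ _).trans ?_
    rw [Γ'.nvX, Γ'.nv, mul_one]
  have hb : ∀ γ, ‖(inner ℂ (Γ.vX γ) Γ.v : ℂ)‖ ≤ 1 := by
    intro γ
    refine (norm_inner_le_norm _ _).trans ?_
    rw [Γ.nvX, Γ.nv, mul_one]
  have hdiff : ∀ b : R.Ua, ‖b‖ ≤ ‖ζ‖ →
      ‖b‖ - δ ^ 2 / 8 * ‖ζ‖ ≤ ‖UP.map (ind ℂ (R.W n)) (b : UP (L2 G))‖ →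
      ‖TL Γ' b - TR Γ' b‖ ≤ δ * ‖ζ‖ := by
    intro b hb1 hb2
    by_cases hδ1 : 2 ≤ δ
    · calc ‖TL Γ' b - TR Γ' b‖ ≤ ‖TL Γ' b‖ + ‖TR Γ' b‖ := norm_sub_le _ _
        _ = 2 * ‖b‖ := by rw [LinearIsometry.norm_map, LinearIsometry.norm_map]; ring
        _ ≤ δ * ‖ζ‖ := mul_le_mul hδ1 hb1 (norm_nonneg _) hδ.le
    push Not at hδ1
    refine (sq_le_sq₀ (norm_nonneg _) (by positivity)).1 ?_
    have h1 := norm_sub_sq (𝕜 := ℂ) (TL Γ' b) (TR Γ' b)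
    rw [h1, LinearIsometry.norm_map, LinearIsometry.norm_map, inner_TL_TR]
    have h2 := tt_lower (W := R.W n) (c := 1 - δ ^ 2 / 4) hb' (fun γ => Γ'.nonneg γ) hΓ1
      (b : UP (L2 G))
    have h3 : ‖UP.map (ind ℂ (R.W n)) (b : UP (L2 G))‖ ≤ ‖b‖ := norm_ind_le _ _
    have h4 : RCLike.re (inner ℂ (b : UP (L2 G))
        (UP.map (mulop fun γ => inner ℂ (Γ'.vX γ) Γ'.v) (b : UP (L2 G)))) = (inner ℂ (b : UP (L2 G))
        (UP.map (mulop fun γ => inner ℂ (Γ'.vX γ) Γ'.v) (b : UP (L2 G)))).re := rfl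
    rw [h4]
    set m := ‖UP.map (ind ℂ (R.W n)) (b : UP (L2 G))‖ with hm
    have hm0 : 0 ≤ m := norm_nonneg _
    have hB0 : 0 ≤ ‖b‖ := norm_nonneg _
    have h5 : ‖b‖ ^ 2 - m ^ 2 ≤ δ ^ 2 / 4 * ‖ζ‖ ^ 2 := by
      have e : ‖b‖ ^ 2 - m ^ 2 = (‖b‖ - m) * (‖b‖ + m) := by ring
      rw [e]
      have e2 : ‖b‖ - m ≤ δ ^ 2 / 8 * ‖ζ‖ := by linarith
      have e3 : ‖b‖ + m ≤ 2 * ‖ζ‖ := by linarith
      calc (‖b‖ - m) * (‖b‖ + m) ≤ δ ^ 2 / 8 * ‖ζ‖ * (2 * ‖ζ‖) :=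
            mul_le_mul e2 e3 (by positivity) (by positivity)
        _ = δ ^ 2 / 4 * ‖ζ‖ ^ 2 := by ring
    have h6 : δ ^ 2 / 4 * m ^ 2 ≤ δ ^ 2 / 4 * ‖ζ‖ ^ 2 :=
      mul_le_mul_of_nonneg_left (pow_le_pow_left₀ hm0 (h3.trans hb1) 2) (by positivity)
    nlinarith
  have ht := tight (comm2_V Γ') (TL Γ') (TR Γ') (TR_A Γ') (TL_B Γ') hζ hK hδ.le
    (fun q hq => hdiff _ (norm_ext_le (AU R) E q ζ) (hnQ q hq)) (hdiff ζ le_rfl hnζ)
  obtain ⟨n', hn'⟩ := hΓ2 (1 / 4) (by norm_num)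
  obtain ⟨c, hc, hpos⟩ := Γ.pos n'
  have hcmp : ∀ γ, (inner ℂ (Γ'.vX γ) Γ'.v : ℂ).re ≤ 1 / 4 + 1 / c * (inner ℂ (Γ.vX γ) Γ.v : ℂ).re := by
    intro γ
    by_cases hγ : γ ∈ R.W n'
    · have h1 := hpos γ hγ
      have h2 : 1 ≤ 1 / c * (inner ℂ (Γ.vX γ) Γ.v : ℂ).re := by
        rw [one_div, inv_mul_eq_div, le_div_iff₀ hc, one_mul]
        exact h1
      have h3 := (Complex.re_le_norm _).trans (hb' γ)
      linarith
    · have h1 := hn' γ hγ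
      have h2 : 0 ≤ 1 / c * (inner ℂ (Γ.vX γ) Γ.v : ℂ).re :=
        mul_nonneg (by positivity) (Γ.nonneg γ)
      linarith
  have hc1 : 0 < c * (‖ζ‖ ^ 2 / 4) := by positivity
  obtain ⟨η, e1, e2, e3, e4⟩ := hull (comm2_V Γ) (TL Γ) (TR Γ) (TR_A Γ) (TL_B Γ) hζ hc1 (fun l => by
    have h1 := ht l
    rw [inner_TL_TR] at h1
    rw [inner_TL_TR]
    have h2 := tt_compare hb' hb hcmp ((ext (AU R) E l ζ : R.Ua) : UP (L2 G))
    have h3 : ‖((ext (AU R) E l ζ : R.Ua) : UP (L2 G))‖ ≤ ‖ζ‖ := norm_ext_le (AU R) E l ζ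
    have h4 : ‖((ext (AU R) E l ζ : R.Ua) : UP (L2 G))‖ ^ 2 ≤ ‖ζ‖ ^ 2 :=
      pow_le_pow_left₀ (norm_nonneg _) h3 2
    have h5 : 1 / 2 * ‖ζ‖ ^ 2 ≤ (1 - δ - 4 * δ / κ) * ‖ζ‖ ^ 2 :=
      mul_le_mul_of_nonneg_right hδ' (sq_nonneg _)
    have h6 : ‖ζ‖ ^ 2 / 4 ≤ 1 / c * (inner ℂ ((ext (AU R) E l ζ : R.Ua) : UP (L2 G))
        (UP.map (mulop fun γ => inner ℂ (Γ.vX γ) Γ.v)
          ((ext (AU R) E l ζ : R.Ua) : UP (L2 G)))).re := by
      linarith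
    rw [one_div, inv_mul_eq_div, le_div_iff₀ hc] at h6
    linarith)
  exact no_central hK (comm2_V Γ) e1 e2 e3 e4 (apx Γ hD)

end Pool.Agent.Helper84.GN
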