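import Pool.Agent.Helper84.GN.K2
import Pool.Agent.Helper84.GN.I1
import Pool.Agent.Helper84.GN.TT

/-!
# Project RK, block HA: the Haagerup property over strata with blocks of size at most two

`f γ = kb T.b s (S.X γ) = ∏_{(i, j) ∈ prs} (2 s_i s_j / (s_i^2 + s_j^2))^s` (`S.X γ = diagonal (1 / s_i)`), each factor in `(0, 1]`. PROOFS. `kb_X`: compute. `kb_lower`: if `s_i ≤ K s_j` for `i, j` in the same block (and `i < j`, so `s_j ≤ s_i`)
each base is `≥ 1 / K` (`K ≥ 1`), so `f γ ≥ (1/K)^(s · #prs) → 1` as `s → 0`. `kb_upper`: the base is `≤ 2 s_j / s_i`; if `s_i > K s_j` for some pair then `f γ ≤ (2 / K)^s`.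
`haag`: for given `n`, `δ` let `K` be from `T.cpt n` (`K ≥ 1` WLOG), choose `s > 0` with `(1/K)^(s · #prs) ≥ 1 - δ`; `Φ` from `exists_fib2`; the field of unitaries `pi g h γ = Φ.π (T.C g h γ)`, `v = Φ.v`, `vX γ = Φ.π (S.X γ) Φ.v` with the fields
`coc_one` ... `coc_right` of block I1 (they are stated for every fibre representation), `nonneg` and `pos` from the formula (`⟪vX, v⟫ = conj ⟪v, vX⟫` is real and `≥ 0`; `pos` from `kb_lower` with `T.cpt`). For `ε`: `K'` with `(2 / K')^s ≤ ε`, `hW K'`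
gives `n'` such that outside `W n'` some ratio in a block is `> K'` (`i ≤ j` may be assumed because the other ratios are `≤ 1 ≤ K'`).
-/

set_option autoImplicit false

open Filter Topology Matrix

namespace Pool.Agent.Helper84.GN

open NI Pool.Agent.Helper90.RK

variable {G : Type} [Group G] {N : ℕ} {P : PH G N} {S : Sv P}

theorem kb_X (b : Fin N → ℕ) (s : ℝ) (γ : G) :
    kb b s (S.X γ) = ∏ p ∈ prs b, (2 * S.s γ p.1 * S.s γ p.2 / (S.s γ p.1 ^ 2 + S.s γ p.2 ^ 2)) ^ s := by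
  unfold kb
  refine Finset.prod_congr rfl fun p hp => ?_
  have h12 : p.1 < p.2 := (Finset.mem_filter.1 hp).2.1
  have a1 := S.pos γ p.1
  have a2 := S.pos γ p.2
  have e11 : S.X γ p.1 p.1 = (((S.s γ p.1)⁻¹ : ℝ) : ℂ) := by
    unfold Sv.X
    rw [Matrix.diagonal_apply_eq]
    push_cast
    rfl
  have e22 : S.X γ p.2 p.2 = (((S.s γ p.2)⁻¹ : ℝ) : ℂ) := by
    unfold Sv.X
    rw [Matrix.diagonal_apply_eq]
    push_cast
    rfl
  have e12 : S.X γ p.1 p.2 = 0 := by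
    unfold Sv.X
    rw [Matrix.diagonal_apply_ne _ h12.ne]
  have e21 : S.X γ p.2 p.1 = 0 := by
    unfold Sv.X
    rw [Matrix.diagonal_apply_ne _ h12.ne']
  have hd : ‖(blk2 (S.X γ) p).det‖ = (S.s γ p.1)⁻¹ * (S.s γ p.2)⁻¹ := by
    unfold blk2
    rw [Matrix.det_fin_two_of, e11, e22, e12, e21, mul_zero, sub_zero, norm_mul, Complex.norm_real,
      Complex.norm_real, Real.norm_of_nonneg (inv_pos.2 a1).le, Real.norm_of_nonneg (inv_pos.2 a2).le]
  have hn : ns (blk2 (S.X γ) p) = (S.s γ p.1)⁻¹ ^ 2 + (S.s γ p.2)⁻¹ ^ 2 := by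
    unfold ns blk2
    rw [Fin.sum_univ_two, Fin.sum_univ_two, Fin.sum_univ_two]
    simp only [Matrix.of_apply, Matrix.cons_val', Matrix.cons_val_zero, Matrix.cons_val_one,
      Matrix.cons_val_fin_one]
    rw [e11, e22, e12, e21, norm_zero, Complex.norm_real,
      Complex.norm_real, Real.norm_of_nonneg (inv_pos.2 a1).le, Real.norm_of_nonneg (inv_pos.2 a2).le]
    ring
  rw [hd, hn]
  congr 1
  field_simp
  ring

theorem kb_lower (b : Fin N → ℕ) {s K : ℝ} (hs : 0 < s) (hK : 1 ≤ K) {γ : G}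
    (h : ∀ i j, b i = b j → S.s γ i ≤ K * S.s γ j) : (1 / K) ^ (s * (prs b).card) ≤ kb b s (S.X γ) := by
  have hc : ((1 / K : ℝ) ^ (s * (prs b).card)) = ∏ _p ∈ prs b, (1 / K : ℝ) ^ s := by
    rw [Finset.prod_const, Real.rpow_mul (by positivity), Real.rpow_natCast]
  rw [hc, kb_X]
  refine Finset.prod_le_prod (fun p _ => by positivity) fun p hp => ?_
  have h12 := (Finset.mem_filter.1 hp).2
  have a1 := S.pos γ p.1
  have a2 := S.pos γ p.2
  have h3 := h p.1 p.2 h12.2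
  have h4 : S.s γ p.2 ≤ S.s γ p.1 := S.anti γ h12.1.le
  refine Real.rpow_le_rpow (by positivity) ?_ hs.le
  rw [div_le_div_iff₀ (by linarith) (by positivity), one_mul]
  have h5 : S.s γ p.1 ^ 2 ≤ K * S.s γ p.2 * S.s γ p.1 := by
    rw [pow_two]
    exact mul_le_mul_of_nonneg_right h3 a1.le
  have h6 : S.s γ p.2 ^ 2 ≤ K * S.s γ p.2 * S.s γ p.1 := by
    calc S.s γ p.2 ^ 2 = 1 * S.s γ p.2 * S.s γ p.2 := by ring
      _ ≤ K * S.s γ p.2 * S.s γ p.1 :=
        mul_le_mul (mul_le_mul_of_nonneg_right hK a2.le) h4 a2.le (by positivity)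
  nlinarith

theorem kb_upper (b : Fin N → ℕ) {s K : ℝ} (hs : 0 < s) (hK : 1 ≤ K) {γ : G} {i j : Fin N}
    (hij : b i = b j) (h : K * S.s γ j < S.s γ i) : kb b s (S.X γ) ≤ (2 / K) ^ s := by
  have ai := S.pos γ i
  have aj := S.pos γ j
  have h1 : S.s γ j < S.s γ i := by
    refine lt_of_le_of_lt ?_ h
    calc S.s γ j = 1 * S.s γ j := (one_mul _).symm
      _ ≤ K * S.s γ j := mul_le_mul_of_nonneg_right hK aj.le
  have hlt : i < j := by
    by_contra hcon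
    rw [not_lt] at hcon
    exact absurd (S.anti γ hcon) (not_le.2 h1)
  have hmem : (i, j) ∈ prs b := Finset.mem_filter.2 ⟨Finset.mem_univ _, hlt, hij⟩
  rw [kb_X, ← Finset.mul_prod_erase _ _ hmem]
  have h2 : ∏ p ∈ (prs b).erase (i, j),
      (2 * S.s γ p.1 * S.s γ p.2 / (S.s γ p.1 ^ 2 + S.s γ p.2 ^ 2)) ^ s ≤ 1 := by
    refine Finset.prod_le_one (fun p _ => ?_) fun p _ => ?_
    · have a1 := S.pos γ p.1
      have a2 := S.pos γ p.2
      positivity
    · have a1 := S.pos γ p.1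
      have a2 := S.pos γ p.2
      refine Real.rpow_le_one (by positivity) ?_ hs.le
      rw [div_le_one (by positivity)]
      nlinarith [sq_nonneg (S.s γ p.1 - S.s γ p.2)]
  have h3 : 0 ≤ (2 * S.s γ i * S.s γ j / (S.s γ i ^ 2 + S.s γ j ^ 2)) ^ s := by positivity
  refine (mul_le_of_le_one_right h3 h2).trans (Real.rpow_le_rpow (by positivity) ?_ hs.le)
  show 2 * S.s γ i * S.s γ j / (S.s γ i ^ 2 + S.s γ j ^ 2) ≤ 2 / K
  rw [div_le_div_iff₀ (by positivity) (by linarith)]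
  have h4 : S.s γ i * (K * S.s γ j) ≤ S.s γ i * S.s γ i := mul_le_mul_of_nonneg_left h.le ai.le
  nlinarith [sq_nonneg (S.s γ j)]

theorem haag (T : Str S) (h2 : ∀ i j k, T.b i = T.b j → T.b j = T.b k → i = j ∨ j = k ∨ i = k)
    (hW : ∀ K : ℝ, ∃ n, ∀ γ, (∀ i j, T.b i = T.b j → S.s γ i ≤ K * S.s γ j) → γ ∈ T.W n) :
    Haag (toReg T) := by
  intro n δ hδ
  obtain ⟨K, hK⟩ := T.cpt n
  have hK1 : (1:ℝ) ≤ max K 1 := le_max_right _ _
  have hK0 : (0:ℝ) < 1 / max K 1 := by positivity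
  obtain ⟨s, hs, hs1⟩ : ∃ s : ℝ, 0 < s ∧ 1 - δ ≤ (1 / max K 1) ^ (s * (prs T.b).card) := by
    have hc : Continuous fun s : ℝ => (1 / max K 1) ^ (s * ((prs T.b).card : ℝ)) :=
      (Real.continuous_const_rpow hK0.ne').comp (continuous_id.mul continuous_const)
    have h1 := hc.tendsto 0
    rw [zero_mul, Real.rpow_zero] at h1
    have h2 := h1.eventually (lt_mem_nhds (show 1 - δ < 1 by linarith))
    have h3 : ∀ᶠ s : ℝ in 𝓝[>] 0, 1 - δ < (1 / max K 1) ^ (s * ((prs T.b).card : ℝ)) :=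
      h2.filter_mono nhdsWithin_le_nhds
    obtain ⟨s, hs1, hs2⟩ := (h3.and self_mem_nhdsWithin).exists
    exact ⟨s, hs2, hs1.le⟩
  obtain ⟨L, i1, i2, i3, Φ, hΦ⟩ := exists_fib2 T.b h2 s hs
  have hre : ∀ γ, (inner ℂ (Φ.π (S.X γ) Φ.v) Φ.v : ℂ).re = kb T.b s (S.X γ) := by
    intro γ
    rw [← inner_conj_symm, hΦ _ (T.X_mem γ), Complex.conj_ofReal, Complex.ofReal_re]
  have hlow : ∀ n : ℕ, ∃ c : ℝ, 0 < c ∧ ∀ γ ∈ T.W n, c ≤ (inner ℂ (Φ.π (S.X γ) Φ.v) Φ.v : ℂ).re := by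
    intro m
    obtain ⟨K', hK'⟩ := T.cpt m
    refine ⟨(1 / max K' 1) ^ (s * (prs T.b).card), by positivity, fun γ hγ => ?_⟩
    rw [hre]
    exact kb_lower T.b hs (le_max_right _ _) fun i j hij => (hK' γ hγ i j hij).trans
      (mul_le_mul_of_nonneg_right (le_max_left _ _) (S.pos γ j).le)
  have hnn : ∀ γ, 0 ≤ (inner ℂ (Φ.π (S.X γ) Φ.v) Φ.v : ℂ).re := by
    intro γ
    rw [hre, kb_X]
    refine Finset.prod_nonneg fun p _ => ?_
    have a1 := S.pos γ p.1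
    have a2 := S.pos γ p.2
    positivity
  refine ⟨L, i1, i2, i3,
    { pi := fun g h γ => Φ.π (T.C g h γ)
      v := Φ.v
      vX := fun γ => Φ.π (S.X γ) Φ.v
      nv := Φ.nv
      nvX := fun γ => by rw [LinearIsometryEquiv.norm_map, Φ.nv]
      one := coc_one T Φ
      cpt := coc_cpt T Φ
      mul := coc_mul T Φ
      left := coc_left T Φ
      cptX := coc_cptX T Φ
      right := coc_right T Φ
      nonneg := hnn
      pos := hlow }, ?_, ?_⟩
  · intro γ hγ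
    change 1 - δ ≤ (inner ℂ (Φ.π (S.X γ) Φ.v) Φ.v : ℂ).re
    rw [hre]
    refine hs1.trans (kb_lower T.b hs (le_max_right _ _) fun i j hij => (hK γ hγ i j hij).trans
      (mul_le_mul_of_nonneg_right (le_max_left _ _) (S.pos γ j).le))
  · intro ε hε
    set K' : ℝ := max 1 (2 / ε ^ (1 / s)) with hK'
    have hK'1 : 1 ≤ K' := le_max_left _ _
    have hε1 : 0 < ε ^ (1 / s) := Real.rpow_pos_of_pos hε _
    have hub : (2 / K') ^ s ≤ ε := by
      have h3 : 2 / K' ≤ ε ^ (1 / s) := by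
        rw [div_le_iff₀ (by linarith)]
        have h4 : 2 / ε ^ (1 / s) ≤ K' := le_max_right _ _
        rw [div_le_iff₀ hε1] at h4
        linarith
      calc (2 / K') ^ s ≤ (ε ^ (1 / s)) ^ s := Real.rpow_le_rpow (by positivity) h3 hs.le
        _ = ε := by
            rw [← Real.rpow_mul hε.le, one_div, inv_mul_cancel₀ hs.ne', Real.rpow_one]
    obtain ⟨n', hn'⟩ := hW K'
    refine ⟨n', fun γ hγ => ?_⟩
    change (inner ℂ (Φ.π (S.X γ) Φ.v) Φ.v : ℂ).re ≤ ε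
    rw [hre]
    have h3 : ¬ ∀ i j, T.b i = T.b j → S.s γ i ≤ K' * S.s γ j := fun h => hγ (hn' γ h)
    push Not at h3
    obtain ⟨i, j, hij, h4⟩ := h3
    exact (kb_upper T.b hs hK'1 hij h4).trans hub

end Pool.Agent.Helper84.GN
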