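import Pool.Agent.Helper84.NI.WB

/-!
# Project GN / RK (MP_0f6f3f_an, rank theorem): regions, limit spaces (definitions)

`Reg G`: increasing regions `W n` and filters `F n` on `G` (neighbourhoods of infinity in `W n`), stable under translations up to a change of the index.
`R.Ua ⊂ UP (ℓ²(G))`: closure of the vectors carried by all the sets of some filter `F n`; `R.Vp L ⊂ UP (ℓ²(G; L))`: closed span of the `a ⊗ w`, `a ∈ R.Ua`, `w ∈ L`.
`Coc R L`: a field of unitaries `pi g h γ` of `L`, multiplicative in the limit, with two sections `v`, `vX`. `Mul Γ Q ε`: approximately equivariant multipliers.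
-/

set_option autoImplicit false

open Filter Topology Matrix

namespace Pool.Agent.Helper84.GN

open NI GVN

/-- Regions and neighbourhoods of infinity. -/
structure Reg (G : Type) [Group G] where
  /-- regions -/
  W : ℕ → Set G
  /-- neighbourhoods of infinity in the regions -/
  F : ℕ → Filter G
  monoF : ∀ n, F n ≤ F (n + 1)
  le : ∀ n, F n ≤ 𝓟 (W n)
  shift : ∀ (g h : G) (n : ℕ), ∃ n', Tendsto (fun γ => g⁻¹ * γ * h) (F n) (F n')

variable {G : Type} [Group G]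

namespace Reg

variable (R : Reg G)

/-- The vectors carried by all the sets of one of the filters `F n`. -/
def UaSet : Set (UP (L2 G)) := {ξ | ∃ n : ℕ, ∀ s ∈ R.F n, UP.map (ind ℂ s) ξ = ξ}

/-- The part of the limit space over the stratum. -/
noncomputable def Ua : Submodule ℂ (UP (L2 G)) := (Submodule.span ℂ R.UaSet).topologicalClosure

/-- The space over the stratum with fibre `L`. -/
noncomputable def Vp (L : Type) [NormedAddCommGroup L] [InnerProductSpace ℂ L] :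
    Submodule ℂ (UP (Lv G L)) :=
  (Submodule.span ℂ {ξ | ∃ (w : L) (a : UP (L2 G)), a ∈ R.Ua ∧ ξ = UP.map (mulF fun _ => w) a}).topologicalClosure

instance instCompUa : CompleteSpace R.Ua :=
  (Submodule.isClosed_topologicalClosure _).completeSpace_coe

instance instCompVp (L : Type) [NormedAddCommGroup L] [InnerProductSpace ℂ L] :
    CompleteSpace (R.Vp L) :=
  (Submodule.isClosed_topologicalClosure _).completeSpace_coe

end Reg

/-- A field of unitaries over the stratum, multiplicative in the limit, with two unit sections. -/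
structure Coc (R : Reg G) (L : Type) [NormedAddCommGroup L] [InnerProductSpace ℂ L] where
  /-- the field of unitaries -/
  pi : G → G → G → (L ≃ₗᵢ[ℂ] L)
  /-- the constant section -/
  v : L
  /-- the second section -/
  vX : G → L
  nv : ‖v‖ = 1
  nvX : ∀ γ, ‖vX γ‖ = 1
  one : ∀ γ w, pi 1 1 γ w = w
  cpt : ∀ (g h : G) (n : ℕ) (w : L), ∃ K : Set L, IsCompact K ∧ ∀ᶠ γ in R.F n, pi g h γ w ∈ K
  mul : ∀ (g h g' h' : G) (n : ℕ) (w : L), Tendsto (fun γ => pi (g * g') (h * h') γ w -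
    pi g h γ (pi g' h' (g⁻¹ * γ * h) w)) (R.F n) (𝓝 0)
  left : ∀ (g : G) (n : ℕ), Tendsto (fun γ => pi g 1 γ v - v) (R.F n) (𝓝 0)
  cptX : ∀ n : ℕ, ∃ K : Set L, IsCompact K ∧ ∀ᶠ γ in R.F n, vX γ ∈ K
  right : ∀ (h : G) (n : ℕ), Tendsto (fun γ => pi 1 h γ (vX (1⁻¹ * γ * h)) - vX γ) (R.F n) (𝓝 0)
  nonneg : ∀ γ, 0 ≤ (inner ℂ (vX γ) v).re
  pos : ∀ n : ℕ, ∃ c : ℝ, 0 < c ∧ ∀ γ ∈ R.W n, c ≤ (inner ℂ (vX γ) v).re

/-- Approximately equivariant multipliers. -/
structure Mul {R : Reg G} {L : Type} [NormedAddCommGroup L] [InnerProductSpace ℂ L]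
    (Γ : Coc R L) (Q : Finset G) (ε : ℝ) where
  /-- the support -/
  supp : Finset G
  /-- the multipliers -/
  mo : G → G → (L →L[ℂ] L)
  off : ∀ γ t, t ∉ supp → mo γ t = 0
  sum : ∀ γ f, ∑ t ∈ supp, ‖mo γ t f‖ ^ 2 = ‖f‖ ^ 2
  cpt : ∀ t w, ∃ K : Set L, IsCompact K ∧ ∀ γ, mo γ t w ∈ K
  left : ∀ (t g : G) (n : ℕ) (w : L), Tendsto (fun γ => mo γ t (Γ.pi g 1 γ w) -
    Γ.pi g 1 γ (mo (g⁻¹ * γ * 1) t w)) (R.F n) (𝓝 0)
  right : ∀ h ∈ Q, ∀ n : ℕ, ∀ᶠ γ in R.F n, ∀ (s : Finset G) (f : L),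
    ∑ t ∈ s, ‖mo γ t (Γ.pi 1 h γ f) - Γ.pi 1 h γ (mo (1⁻¹ * γ * h) (h⁻¹ * t) f)‖ ^ 2 ≤ ε ^ 2 * ‖f‖ ^ 2

section What

variable {R : Reg G} {L : Type} [NormedAddCommGroup L] [InnerProductSpace ℂ L]

/-- The operator `(ξ_γ) ↦ (pi g h γ ξ_{g⁻¹ γ h})` on `ℓ²(G; L)`. -/
noncomputable def What (Γ : Coc R L) (g h : G) : Lv G L ≃ₗᵢ[ℂ] Lv G L :=
  (permV (tr g h)).trans (dgU fun γ => Γ.pi g h γ)

theorem What_apply (Γ : Coc R L) (g h : G) (ξ : Lv G L) (γ : G) :
    What Γ g h ξ γ = Γ.pi g h γ (ξ (g⁻¹ * γ * h)) := rfl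

end What

end Pool.Agent.Helper84.GN
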