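import Pool.Agent.Helper90.RK.Fibre
import Pool.Agent.Helper84.GN.Reg

/-!
# Project RK, block I0: continuity properties of fibre representations (adapt `NI/WC.lean`)

ADAPT `Pool/Agent/Helper84/NI/WC.lean` (all proofs there): `M2` is now `MN N`, `Kc R r` is `Kb b R r` (block diagonal, entries `≤ R`, `r ≤ ‖det‖`; compact by `isCompact_Kb`, in `GLb b` by `Kb_sub`, block DM).
`tendsto_v`: the rows of `f a` are eventually bounded (`‖f i j‖^2 ≤ ‖(f fᴴ) i i‖ → 1`), `‖det f‖^2 = ‖det (f fᴴ)‖ → 1`, so eventually `f a ∈ Kb b 2 (1/2)`. `Kb_mul`: entries `≤ N R R'` (for `N > 0`, `R ≥ 0`).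
-/

set_option autoImplicit false

open Filter Topology Matrix

namespace Pool.Agent.Helper84.GN

open NI Pool.Agent.Helper90.RK

variable {N : ℕ} {b : Fin N → ℕ} {L : Type} [NormedAddCommGroup L] [InnerProductSpace ℂ L]
  (Φ : Pool.Agent.Helper90.RK.Fib b L)

theorem fib_one (w : L) : Φ.π 1 w = w := by
  have h := Φ.mul 1 1 (GLb_one b) (GLb_one b) w
  rw [mul_one] at h
  exact (Φ.π 1).injective h.symm

theorem fib_compact (w : L) {R r : ℝ} (hr : 0 < r) : IsCompact ((fun C => Φ.π C w) '' Kb b R r) :=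
  (isCompact_Kb b R r).image_of_continuousOn ((Φ.cont w).mono (Kb_sub b hr))

theorem fib_scal_one (c : ℂ) (hc : ‖c‖ = 1) {C : MN N} (hC : C ∈ GLb b) : Φ.π (c • C) = Φ.π C := by
  have hc0 : c ≠ 0 := by
    rintro rfl
    rw [norm_zero] at hc
    exact zero_ne_one hc
  have h := Φ.scal (fun _ => c) C ⟨fun _ => hc0, fun _ _ _ => rfl⟩ hC
  rw [← h]
  congr 1
  ext i j
  rw [Matrix.diagonal_mul, Matrix.smul_apply, smul_eq_mul]

/-- limits along an ultrafilter in the compact sets `Kb b R r` -/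
private theorem i0_lim {α : Type} (u : Ultrafilter α) {f : α → MN N} {R r : ℝ}
    (hf : ∀ᶠ a in (u : Filter α), f a ∈ Kb b R r) : ∃ f0 ∈ Kb b R r, Tendsto f u (𝓝 f0) := by
  obtain ⟨f0, h0, h1⟩ := (isCompact_Kb b R r).ultrafilter_le_nhds (u.map f) (by
    rw [le_principal_iff]
    exact hf)
  exact ⟨f0, h0, h1⟩

/-- continuity of the representation along a filter -/
private theorem i0_cont {α : Type} {l : Filter α} {f : α → MN N} {f0 : MN N} {R r : ℝ} (hr : 0 < r)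
    (hf : ∀ᶠ a in l, f a ∈ Kb b R r) (h0 : f0 ∈ Kb b R r) (h : Tendsto f l (𝓝 f0)) (w : L) :
    Tendsto (fun a => Φ.π (f a) w) l (𝓝 (Φ.π f0 w)) := by
  have h1 : Tendsto f l (𝓝[GLb b] f0) :=
    tendsto_nhdsWithin_iff.2 ⟨h, hf.mono fun a ha => Kb_sub b hr ha⟩
  have h2 : ContinuousWithinAt (fun C => Φ.π C w) (GLb b) f0 :=
    Φ.cont w f0 (Kb_sub b hr h0)
  exact Tendsto.comp h2 h1

theorem fib_tendsto_sub {α : Type} {l : Filter α} {f g : α → MN N} {c : α → ℂ} {R r : ℝ} (hr : 0 < r)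
    (hc : ∀ a, ‖c a‖ = 1) (hf : ∀ᶠ a in l, f a ∈ Kb b R r) (hg : ∀ᶠ a in l, g a ∈ Kb b R r)
    (h : Tendsto (fun a => c a • f a - g a) l (𝓝 0)) (w : L) :
    Tendsto (fun a => Φ.π (f a) w - Φ.π (g a) w) l (𝓝 0) := by
  rw [tendsto_iff_ultrafilter]
  intro u hu
  obtain ⟨f0, hf0, hfl⟩ := i0_lim u (hf.filter_mono hu)
  obtain ⟨g0, hg0, hgl⟩ := i0_lim u (hg.filter_mono hu)
  have hcs : ∀ᶠ a in (u : Filter α), c a ∈ Metric.sphere (0 : ℂ) 1 :=
    Filter.Eventually.of_forall fun a => by simpa using hc a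
  obtain ⟨c0, hc0, hcl⟩ := (isCompact_sphere (0 : ℂ) 1).ultrafilter_le_nhds (u.map c) (by
    rw [le_principal_iff]
    exact hcs)
  have hcl' : Tendsto c u (𝓝 c0) := hcl
  have hc0' : ‖c0‖ = 1 := by simpa using hc0
  have h1 : Tendsto (fun a => c a • f a - g a) u (𝓝 (c0 • f0 - g0)) := (hcl'.smul hfl).sub hgl
  have h2 := tendsto_nhds_unique h1 (h.mono_left hu)
  have h3 : c0 • f0 = g0 := sub_eq_zero.1 h2
  have h4 := (i0_cont Φ hr (hf.filter_mono hu) hf0 hfl w).sub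
    (i0_cont Φ hr (hg.filter_mono hu) hg0 hgl w)
  rw [← h3, fib_scal_one Φ c0 hc0' (Kb_sub b hr hf0), sub_self] at h4
  exact h4

private theorem i0_v {α : Type} {l : Filter α} {f : α → MN N} {R r : ℝ} (hr : 0 < r)
    (hf : ∀ᶠ a in l, f a ∈ Kb b R r)
    (h : ∀ (u : Ultrafilter α) (f0 : MN N), ↑u ≤ l → Tendsto f u (𝓝 f0) → IsU f0) :
    Tendsto (fun a => Φ.π (f a) Φ.v) l (𝓝 Φ.v) := by
  rw [tendsto_iff_ultrafilter]
  intro u hu
  obtain ⟨f0, hf0, hfl⟩ := i0_lim u (hf.filter_mono hu)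
  have h1 := i0_cont Φ hr (hf.filter_mono hu) hf0 hfl Φ.v
  rw [Φ.inv f0 (Kb_sub b hr hf0) (h u f0 hu hfl)] at h1
  exact h1

private theorem i0_norm_det (A : MN N) : ‖(Aᴴ).det‖ = ‖A.det‖ := by
  rw [Matrix.det_conjTranspose, norm_star]

private theorem i0_row (A : MN N) (i j : Fin N) : ‖A i j‖ ^ 2 ≤ ‖(A * Aᴴ) i i‖ := by
  have h1 : (A * Aᴴ) i i = ((∑ k, ‖A i k‖ ^ 2 : ℝ) : ℂ) := by
    rw [Matrix.mul_apply, Complex.ofReal_sum]
    refine Finset.sum_congr rfl fun k _ => ?_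
    rw [Matrix.conjTranspose_apply]
    have h1 : A i k * (starRingEnd ℂ) (A i k) = ((‖A i k‖ : ℂ)) ^ 2 := Complex.mul_conj' (A i k)
    rw [Complex.ofReal_pow, ← h1]
    rfl
  rw [h1, Complex.norm_real, Real.norm_of_nonneg (by positivity)]
  exact Finset.single_le_sum (f := fun k => ‖A i k‖ ^ 2) (fun k _ => by positivity)
    (Finset.mem_univ j)

private theorem i0_ev {α : Type} {l : Filter α} {f : α → MN N} (hb : ∀ a, D b (f a) = f a)
    (h : Tendsto (fun a => f a * (f a)ᴴ) l (𝓝 1)) : ∀ᶠ a in l, f a ∈ Kb b 2 (1 / 2) := by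
  have h1 : ∀ i : Fin N, ∀ᶠ a in l, ‖(f a * (f a)ᴴ) i i‖ < 4 := by
    intro i
    have h2 := (tendsto_pi_nhds.1 (tendsto_pi_nhds.1 h i) i).norm
    rw [Matrix.one_apply_eq, norm_one] at h2
    exact h2.eventually (gt_mem_nhds (show (1 : ℝ) < 4 by norm_num))
  have h3 : Tendsto (fun a => ‖(f a * (f a)ᴴ).det‖) l (𝓝 1) := by
    have hc : Continuous fun C : MN N => C.det := by fun_prop
    have h4 := ((hc.tendsto 1).comp h).norm
    rw [Matrix.det_one, norm_one] at h4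
    exact h4
  filter_upwards [Filter.eventually_all.2 h1,
    h3.eventually (lt_mem_nhds (show (1 / 4 : ℝ) < 1 by norm_num))] with a a0 a2
  refine ⟨hb a, fun i j => ?_, ?_⟩
  · have h5 := (i0_row (f a) i j).trans (a0 i).le
    nlinarith [norm_nonneg (f a i j)]
  · rw [Matrix.det_mul, norm_mul, i0_norm_det] at a2
    nlinarith [norm_nonneg (f a).det]

private theorem i0_ev' {α : Type} {l : Filter α} {f : α → MN N} (hb : ∀ a, D b (f a) = f a)
    (h : Tendsto (fun a => (f a)ᴴ * f a) l (𝓝 1)) : ∀ᶠ a in l, f a ∈ Kb b 2 (1 / 2) := by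
  have hK : ∀ᶠ a in l, (f a)ᴴ ∈ Kb b 2 (1 / 2) := by
    refine i0_ev (f := fun a => (f a)ᴴ) (fun a => by rw [D_star, hb a]) ?_
    simpa using h
  filter_upwards [hK] with a ha
  refine ⟨hb a, fun i j => ?_, ?_⟩
  · have := ha.2.1 j i
    rwa [Matrix.conjTranspose_apply, norm_star] at this
  · have := ha.2.2
    rwa [i0_norm_det] at this

theorem fib_tendsto_v {α : Type} {l : Filter α} {f : α → MN N} (hb : ∀ a, D b (f a) = f a)
    (h : Tendsto (fun a => f a * (f a)ᴴ) l (𝓝 1)) : Tendsto (fun a => Φ.π (f a) Φ.v) l (𝓝 Φ.v) := by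
  refine i0_v Φ (by norm_num : (0 : ℝ) < 1 / 2) (i0_ev hb h) fun u f0 hu hf0 => ?_
  have hc : Continuous fun C : MN N => C * Cᴴ := by fun_prop
  have h1 := tendsto_nhds_unique ((hc.tendsto f0).comp hf0) (h.mono_left hu)
  exact mul_eq_one_comm.1 h1

theorem fib_tendsto_v' {α : Type} {l : Filter α} {f : α → MN N} (hb : ∀ a, D b (f a) = f a)
    (h : Tendsto (fun a => (f a)ᴴ * f a) l (𝓝 1)) : Tendsto (fun a => Φ.π (f a) Φ.v) l (𝓝 Φ.v) := by
  refine i0_v Φ (by norm_num : (0 : ℝ) < 1 / 2) (i0_ev' hb h) fun u f0 hu hf0 => ?_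
  have hc : Continuous fun C : MN N => Cᴴ * C := by fun_prop
  exact tendsto_nhds_unique ((hc.tendsto f0).comp hf0) (h.mono_left hu)

theorem eventually_GLb {α : Type} {l : Filter α} {f : α → MN N} (hb : ∀ a, D b (f a) = f a)
    (h : Tendsto (fun a => (f a)ᴴ * f a) l (𝓝 1)) : ∀ᶠ a in l, f a ∈ GLb b :=
  (i0_ev' hb h).mono fun _ ha => Kb_sub b (by norm_num : (0 : ℝ) < 1 / 2) ha

theorem Kb_mul {R r R' r' : ℝ} {C C' : MN N} (hC : C ∈ Kb b R r) (hD : C' ∈ Kb b R' r') (hr : 0 ≤ r)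
    (hr' : 0 ≤ r') : C * C' ∈ Kb b (N * R * R') (r * r') := by
  refine ⟨?_, fun i j => ?_, ?_⟩
  · rw [D_mul_left b hC.1, hD.1]
  · have hR : 0 ≤ R := (norm_nonneg _).trans (hC.2.1 i i)
    rw [Matrix.mul_apply]
    calc ‖∑ k, C i k * C' k j‖ ≤ ∑ k, ‖C i k * C' k j‖ := norm_sum_le _ _
      _ ≤ ∑ _k : Fin N, R * R' := by
          refine Finset.sum_le_sum fun k _ => ?_
          rw [norm_mul]
          exact mul_le_mul (hC.2.1 i k) (hD.2.1 k j) (norm_nonneg _) hR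
      _ = N * R * R' := by
          rw [Finset.sum_const, Finset.card_univ, Fintype.card_fin, nsmul_eq_mul, mul_assoc]
  · rw [Matrix.det_mul, norm_mul]
    exact mul_le_mul hC.2.2 hD.2.2 hr' (norm_nonneg _)

theorem Kb_mono {R r R' r' : ℝ} (hR : R ≤ R') (hr : r' ≤ r) : Kb b R r ⊆ Kb b R' r' :=
  fun _ hC => ⟨hC.1, fun i j => (hC.2.1 i j).trans hR, hr.trans hC.2.2⟩

end Pool.Agent.Helper84.GN
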