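import Pool.Agent.Helper90.RK.GD
import Pool.Agent.Helper90.RK.Ql

/-!
# Project RK, block I2: frames over a stratum (compare `NI/XA.lean`)

`fr T γ y = kR γ * ql (D b (colM y))`, unitary. PROOFS. `colM_mulVec`: column by column. `Gen_mulVec`: `D b (M A) = M D b A` for block diagonal `M` (`D_mul_left`).
`fr_mul`: associativity. `fr_entries`: let `q = ql (D b (colM y))`, `q' = ql (D b (colM y'))`, `C = T.C g h γ`, `m = S.m g h γ`; `D b (colM y) = C * D b (colM y')`, so `(qᴴ C q') i j = 0` for `i < j`
(`ql_rel`, `A = D b (colM y')`, `M = C`). `q`, `q'` are block diagonal (`ql_D`), so `(qᴴ m q') i j = ∑_{k, l} conj (q k i) m k l q' l j` with `b k = b i`, `b l = b j`. For `b i = b j` only the block diagonal part of `m` contributes: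
`(qᴴ C q') i j = 0`. For `b i < b j` (as `i < j` and `b` is monotone these are the two cases) all the terms have `b k < b l`; entries of unitary matrices are bounded by one.
-/

set_option autoImplicit false

open Filter Topology Matrix

namespace Pool.Agent.Helper84.GN

open NI Pool.Agent.Helper90.RK

variable {G : Type} [Group G] {N : ℕ} {P : PH G N} {S : Sv P} (T : Str S)

theorem norm_entry_le_one {k : MN N} (hk : IsU k) (i j : Fin N) : ‖k i j‖ ≤ 1 := by
  have h1 : (kᴴ * k) j j = 1 := by
    unfold IsU at hk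
    rw [hk, Matrix.one_apply_eq]
  rw [Matrix.mul_apply] at h1
  have h2 : ∑ x, ‖k x j‖ ^ 2 = 1 := by
    have h3 : ((∑ x, ‖k x j‖ ^ 2 : ℝ) : ℂ) = 1 := by
      rw [← h1]
      push_cast
      refine Finset.sum_congr rfl fun x _ => ?_
      rw [Matrix.conjTranspose_apply]
      exact (Complex.conj_mul' (k x j)).symm
    exact_mod_cast h3
  have h4 : ‖k i j‖ ^ 2 ≤ 1 := by
    rw [← h2]
    exact Finset.single_le_sum (f := fun x => ‖k x j‖ ^ 2) (fun _ _ => sq_nonneg _)
      (Finset.mem_univ i)
  nlinarith [norm_nonneg (k i j)]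

theorem colM_mulVec (C : MN N) (y : YY N) : colM (fun j => C *ᵥ y j) = C * colM y := by
  ext i j
  rfl

theorem colM_scal (z : Fin N → ℂ) (y : YY N) : colM (fun j => z * y j) = diagonal z * colM y := by
  ext i j
  rw [Matrix.diagonal_mul]
  rfl

theorem Gen_mulVec {b : Fin N → ℕ} {C : MN N} (hC : C ∈ GLb b) {y : YY N} (hy : Gen b y) :
    Gen b fun j => C *ᵥ y j := by
  unfold Gen at hy ⊢
  rw [colM_mulVec, D_mul_left b hC.1, Matrix.det_mul]
  exact mul_ne_zero hC.2 hy

/-- The frame over `(γ, y)`. -/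
noncomputable def fr (γ : G) (y : YY N) : MN N := S.kR γ * ql (D T.b (colM y))

theorem fr_unitary (γ : G) (y : YY N) : IsU (fr T γ y) :=
  (S.uR γ).mul (ql_unitary _)

theorem fr_mul (g h γ : G) (y y' : YY N) : (fr T γ y)ᴴ * P.ι h * fr T (g⁻¹ * γ * h) y' =
    (ql (D T.b (colM y)))ᴴ * S.m g h γ * ql (D T.b (colM y')) := by
  unfold fr Sv.m
  rw [Matrix.conjTranspose_mul]
  simp only [mul_assoc]

private theorem off_h12 {b : Fin N → ℕ} {A : MN N} (hA : D b A = A) {i j : Fin N} (h : b i ≠ b j) :
    A i j = 0 := by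
  rw [← hA, D_apply, if_neg h]

private theorem entry_h12 (q m q' : MN N) (i j : Fin N) :
    (qᴴ * m * q') i j = ∑ l, ∑ k, star (q k i) * m k l * q' l j := by
  rw [Matrix.mul_apply]
  refine Finset.sum_congr rfl fun l _ => ?_
  rw [Matrix.mul_apply, Finset.sum_mul]
  refine Finset.sum_congr rfl fun k _ => ?_
  rw [Matrix.conjTranspose_apply]

theorem fr_entries (g h γ : G) {y' : YY N} (hC : T.C g h γ ∈ GLb T.b) (hy' : Gen T.b y') {i j : Fin N}
    (hij : i < j) : ‖((fr T γ fun k => T.C g h γ *ᵥ y' k)ᴴ * P.ι h * fr T (g⁻¹ * γ * h) y') i j‖ ≤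
      ∑ k, ∑ l, if T.b k < T.b l then ‖S.m g h γ k l‖ else 0 := by
  classical
  rw [fr_mul, colM_mulVec, D_mul_left T.b hC.1]
  set A := D T.b (colM y') with hA
  set C := T.C g h γ with hCdef
  set m := S.m g h γ with hm
  have hAA : D T.b A = A := D_D T.b _
  have hq : D T.b (ql (C * A)) = ql (C * A) :=
    ql_D T.mono (by rw [D_mul_left T.b hC.1, hAA])
  have hq' : D T.b (ql A) = ql A := ql_D T.mono hAA
  have h0 : 0 ≤ ∑ k, ∑ l, if T.b k < T.b l then ‖m k l‖ else 0 :=
    Finset.sum_nonneg fun k _ => Finset.sum_nonneg fun l _ => by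
      split_ifs
      · exact norm_nonneg _
      · exact le_refl _
  rcases eq_or_lt_of_le (T.mono hij.le) with hb | hb
  · -- the same block
    have h1 : ((ql (C * A))ᴴ * m * ql A) i j = ((ql (C * A))ᴴ * C * ql A) i j := by
      rw [entry_h12, entry_h12]
      refine Finset.sum_congr rfl fun l _ => Finset.sum_congr rfl fun k _ => ?_
      by_cases hk : T.b k = T.b i
      · by_cases hl : T.b l = T.b j
        · have h2 : C k l = m k l := by
            change D T.b m k l = m k l
            rw [D_apply, if_pos (hk.trans (hb.trans hl.symm))]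
          rw [h2]
        · rw [off_h12 hq' hl, mul_zero, mul_zero]
      · rw [off_h12 hq hk, star_zero, zero_mul, zero_mul, zero_mul, zero_mul]
    rw [h1, ql_rel hy' hC.2 hij, norm_zero]
    exact h0
  · -- different blocks
    rw [entry_h12, Finset.sum_comm]
    refine (norm_sum_le _ _).trans (Finset.sum_le_sum fun k _ => ?_)
    refine (norm_sum_le _ _).trans (Finset.sum_le_sum fun l _ => ?_)
    by_cases hk : T.b k = T.b i
    · by_cases hl : T.b l = T.b j
      · rw [if_pos (by rw [hk, hl]; exact hb), norm_mul, norm_mul, norm_star]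
        calc ‖ql (C * A) k i‖ * ‖m k l‖ * ‖ql A l j‖ ≤ 1 * ‖m k l‖ * 1 := by
              gcongr
              · exact norm_entry_le_one (ql_unitary _) _ _
              · exact norm_entry_le_one (ql_unitary _) _ _
          _ = ‖m k l‖ := by ring
      · rw [off_h12 hq' hl, mul_zero, norm_zero]
        split_ifs
        · exact norm_nonneg _
        · exact le_refl _
    · rw [off_h12 hq hk, star_zero, zero_mul, zero_mul, norm_zero]
      split_ifs
      · exact norm_nonneg _
      · exact le_refl _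

/-- The bound of `fr_entries` tends to zero. -/
theorem tendsto_upper (g h : G) (n : ℕ) :
    Tendsto (fun γ => ∑ k, ∑ l, if T.b k < T.b l then ‖S.m g h γ k l‖ else 0) (T.F n) (𝓝 0) := by
  have h1 : Tendsto (fun γ => ∑ k, ∑ l, if T.b k < T.b l then ‖S.m g h γ k l‖ else 0) (T.F n)
      (𝓝 (∑ _k : Fin N, ∑ _l : Fin N, (0 : ℝ))) := by
    refine tendsto_finset_sum _ fun k _ => tendsto_finset_sum _ fun l _ => ?_
    by_cases hkl : T.b k < T.b l
    · simp only [if_pos hkl]
      have h2 := (T.tendsto_m g h n hkl).norm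
      rwa [norm_zero] at h2
    · simp only [if_neg hkl]
      exact tendsto_const_nhds
  simpa using h1

end Pool.Agent.Helper84.GN
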