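import Pool.Agent.Helper90.RK.Fibre
import Pool.Agent.Helper84.NI.FS

/-!
# Project RK, block K2: the kernel fibre representation for blocks of size at most two (generalises `NI/FS.lean`)

`prs b`: the pairs `i < j` with `b i = b j` (blocks of size two). `kb s C = ∏_{(i,j) ∈ prs b} kf s (C restricted to {i, j})`, `kf s A = (2 |det A| / ns A)^s` (`NI/FS.lean`, namespace `Helper90.Fib`).
PROOF. For block diagonal `C`, `D` and a pair `p`: `blk2 (C D) p = blk2 C p * blk2 D p` (the sum over `k` with `b k = b i` is over `k ∈ {i, j}` by `h2`), `det (blk2 C p) ≠ 0` for `C ∈ GLb b` (`blk2 (C⁻¹ C) p = 1`).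
Kernel on `{C // C ∈ GLb b}`: `ker C D = kb s (C⁻¹ D) = ∏_p kf s ((blk2 C p)⁻¹ blk2 D p)`: a finite product of positive semidefinite kernels (`ker_psd` of `NI/FS.lean`, pulled back along `C ↦ blk2 C p`:
`Matrix.PosSemidef.submatrix`; `Matrix.PosSemidef.hadamard`; the constant kernel one). Then copy the proof of `exists_fib_s'` in `NI/FS.lean`: `exists_gns`, `exists_unitary`, `eq_of_total`, `cont_of_total`. `scal`: the blocks of
`diagonal z` are scalars. `inv`: the blocks of a unitary block diagonal matrix are unitary. `cont`: `B ↦ kb s ((B₀ x)⁻¹ (B x))` is continuous on `GLb b` and `= 1` at `B₀`.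
-/

set_option autoImplicit false

open Filter Topology Matrix
open scoped ComplexOrder

namespace Pool.Agent.Helper84.GN

open NI Pool.Agent.Helper90.RK

variable {N : ℕ}

/-- pairs of indices in the same block -/
def prs (b : Fin N → ℕ) : Finset (Fin N × Fin N) := Finset.univ.filter fun p => p.1 < p.2 ∧ b p.1 = b p.2

/-- the restriction to two indices -/
def blk2 (C : MN N) (p : Fin N × Fin N) : M2 := !![C p.1 p.1, C p.1 p.2; C p.2 p.1, C p.2 p.2]

/-- the kernel function -/
noncomputable def kb (b : Fin N → ℕ) (s : ℝ) (C : MN N) : ℝ :=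
  ∏ p ∈ prs b, (2 * ‖(blk2 C p).det‖ / ns (blk2 C p)) ^ s

section h24

open Pool.Agent.Helper90.Fib

private lemma off24 {b : Fin N → ℕ} {A : MN N} (hA : D b A = A) (i k : Fin N) (h : b i ≠ b k) :
    A i k = 0 := by
  have h1 := congrFun (congrFun hA i) k
  rw [D_apply, if_neg h] at h1
  exact h1.symm

private lemma mem_prs24 {b : Fin N → ℕ} {p : Fin N × Fin N} (hp : p ∈ prs b) :
    p.1 ≠ p.2 ∧ b p.1 = b p.2 := by
  have h := (Finset.mem_filter.1 hp).2
  exact ⟨h.1.ne, h.2⟩

private lemma blk2_mul24 {b : Fin N → ℕ} (h2 : ∀ i j k, b i = b j → b j = b k → i = j ∨ j = k ∨ i = k)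
    {A : MN N} (hA : D b A = A) (B : MN N) {p : Fin N × Fin N} (hp : p ∈ prs b) :
    blk2 (A * B) p = blk2 A p * blk2 B p := by
  obtain ⟨hne, hb⟩ := mem_prs24 hp
  have key : ∀ x y : Fin N, b x = b p.1 → (A * B) x y = A x p.1 * B p.1 y + A x p.2 * B p.2 y := by
    intro x y hx
    rw [Matrix.mul_apply, ← Finset.sum_pair hne (f := fun k => A x k * B k y)]
    symm
    refine Finset.sum_subset (Finset.subset_univ _) fun k _ hk => ?_
    rw [Finset.mem_insert, Finset.mem_singleton, not_or] at hk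
    have hbk : b x ≠ b k := by
      intro h
      rcases h2 p.1 p.2 k hb (by rw [← hb, ← hx, h]) with h' | h' | h'
      · exact hne h'
      · exact hk.2 h'.symm
      · exact hk.1 h'.symm
    rw [off24 hA x k hbk, zero_mul]
  ext i j
  fin_cases i <;> fin_cases j <;>
    simp only [blk2, Matrix.mul_apply, Fin.sum_univ_two, Fin.zero_eta, Fin.mk_one, Matrix.of_apply,
      Matrix.cons_val', Matrix.cons_val_zero, Matrix.cons_val_one, Matrix.cons_val_fin_one] <;>
    rw [← Matrix.mul_apply]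
  · exact key _ _ rfl
  · exact key _ _ rfl
  · exact key _ _ hb.symm
  · exact key _ _ hb.symm

private lemma blk2_one24 {b : Fin N → ℕ} {p : Fin N × Fin N} (hp : p ∈ prs b) :
    blk2 (1 : MN N) p = 1 := by
  obtain ⟨hne, -⟩ := mem_prs24 hp
  ext i j
  fin_cases i <;> fin_cases j <;> simp [blk2, hne, hne.symm]

private lemma blk2_inv24 {b : Fin N → ℕ} (h2 : ∀ i j k, b i = b j → b j = b k → i = j ∨ j = k ∨ i = k)
    {A : MN N} (hA : A ∈ GLb b) {p : Fin N × Fin N} (hp : p ∈ prs b) :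
    blk2 A⁻¹ p * blk2 A p = 1 := by
  rw [← blk2_mul24 h2 (GLb_inv b hA).1 A hp, Matrix.nonsing_inv_mul _ (isUnit_iff_ne_zero.2 hA.2),
    blk2_one24 hp]

private lemma blk2_det24 {b : Fin N → ℕ} (h2 : ∀ i j k, b i = b j → b j = b k → i = j ∨ j = k ∨ i = k)
    {A : MN N} (hA : A ∈ GLb b) {p : Fin N × Fin N} (hp : p ∈ prs b) : (blk2 A p).det ≠ 0 := by
  intro h
  have h1 := congrArg Matrix.det (blk2_inv24 h2 hA hp)
  rw [Matrix.det_mul, h, mul_zero, Matrix.det_one] at h1
  exact zero_ne_one h1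

private lemma kb_eq24 (b : Fin N → ℕ) (s : ℝ) (C : MN N) : kb b s C = ∏ p ∈ prs b, kf s (blk2 C p) := rfl

private lemma kb_ker24 {b : Fin N → ℕ} (h2 : ∀ i j k, b i = b j → b j = b k → i = j ∨ j = k ∨ i = k)
    (s : ℝ) {A B : MN N} (hA : A ∈ GLb b) :
    kb b s (A⁻¹ * B) = ∏ p ∈ prs b, kf s ((blk2 A p)⁻¹ * blk2 B p) := by
  rw [kb_eq24]
  refine Finset.prod_congr rfl fun p hp => ?_
  rw [blk2_mul24 h2 (GLb_inv b hA).1 B hp, Matrix.inv_eq_left_inv (blk2_inv24 h2 hA hp)]

private lemma kb_one24 (b : Fin N → ℕ) (s : ℝ) : kb b s 1 = 1 := by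
  rw [kb_eq24]
  refine Finset.prod_eq_one fun p hp => ?_
  rw [blk2_one24 hp, kf_one]

private noncomputable def kerb24 (b : Fin N → ℕ) (s : ℝ) :
    Matrix {C : MN N // C ∈ GLb b} {C : MN N // C ∈ GLb b} ℂ :=
  Matrix.of fun C E => ((kb b s (C.1⁻¹ * E.1) : ℝ) : ℂ)

private lemma kerb_psd24 {b : Fin N → ℕ} (h2 : ∀ i j k, b i = b j → b j = b k → i = j ∨ j = k ∨ i = k)
    {s : ℝ} (hs : 0 < s) : (kerb24 b s).PosSemidef := by
  classical
  have key : ∀ S : Finset (Fin N × Fin N), S ⊆ prs b →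
      (Matrix.of fun C E : {C : MN N // C ∈ GLb b} =>
        ((∏ p ∈ S, kf s ((blk2 C.1 p)⁻¹ * blk2 E.1 p) : ℝ) : ℂ)).PosSemidef := by
    intro S
    induction S using Finset.induction_on with
    | empty =>
      intro _
      have h1 := (Matrix.PosSemidef.one (n := Unit) (R := ℂ)).submatrix
        (fun _ : {C : MN N // C ∈ GLb b} => ())
      refine (congrArg Matrix.PosSemidef ?_).mp h1
      ext C E
      simp
    | insert p S hp ih =>
      intro hS
      have hpb : p ∈ prs b := hS (Finset.mem_insert_self _ _)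
      have h1 := ih fun q hq => hS (Finset.mem_insert_of_mem hq)
      have h3 := (ker_psd hs).submatrix
        (fun C : {C : MN N // C ∈ GLb b} => (⟨blk2 C.1 p, blk2_det24 h2 C.2 hpb⟩ : XX))
      refine (congrArg Matrix.PosSemidef ?_).mp (h3.hadamard h1)
      ext C E
      rw [Matrix.hadamard_apply, Matrix.submatrix_apply, Matrix.of_apply, Matrix.of_apply,
        Finset.prod_insert hp]
      simp only [Pool.Agent.Helper90.Fib.ker, Matrix.of_apply]
      push_cast
      rfl
  refine (congrArg Matrix.PosSemidef ?_).mp (key (prs b) (Finset.Subset.refl _))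
  ext C E
  rw [kerb24, Matrix.of_apply, Matrix.of_apply, kb_ker24 h2 s C.2]

private lemma kf_smul_one24 (s : ℝ) {c : ℂ} (hc : c ≠ 0) : kf s (c • (1 : M2)) = 1 := by
  have hns : ns (c • (1 : M2)) = 2 * ‖c‖ ^ 2 := by
    simp [ns, Fin.sum_univ_two, Matrix.one_apply]
    ring
  have hc' : 0 < ‖c‖ := norm_pos_iff.2 hc
  rw [kf, hns, Matrix.det_smul]
  simp
  rw [div_self (by positivity), Real.one_rpow]

private lemma diag_mem24 {b : Fin N → ℕ} {z : Fin N → ℂ} (hz : IsBs b z) : diagonal z ∈ GLb b := by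
  refine ⟨D_diagonal b z, ?_⟩
  rw [Matrix.det_diagonal]
  exact Finset.prod_ne_zero_iff.2 fun i _ => hz.1 i

private lemma kb_diag24 {b : Fin N → ℕ} (h2 : ∀ i j k, b i = b j → b j = b k → i = j ∨ j = k ∨ i = k)
    (s : ℝ) {z : Fin N → ℂ} (hz : IsBs b z) {A : MN N} (hA : A ∈ GLb b) :
    kb b s (A⁻¹ * (diagonal z * A)) = 1 := by
  rw [kb_ker24 h2 s hA]
  refine Finset.prod_eq_one fun p hp => ?_
  obtain ⟨hne, hb⟩ := mem_prs24 hp
  have e1 : blk2 (diagonal z * A) p = z p.1 • blk2 A p := by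
    rw [blk2_mul24 h2 (D_diagonal b z) A hp]
    have e2 : blk2 (diagonal z) p = z p.1 • (1 : M2) := by
      have h3 : z p.2 = z p.1 := (hz.2 _ _ hb).symm
      ext i j
      fin_cases i <;> fin_cases j <;> simp [blk2, hne, hne.symm, h3]
    rw [e2, Matrix.smul_mul, Matrix.one_mul]
  rw [e1, Matrix.mul_smul, Matrix.nonsing_inv_mul _ (isUnit_iff_ne_zero.2 (blk2_det24 h2 hA hp)),
    kf_smul_one24 s (hz.1 _)]

private lemma kb_unit24 {b : Fin N → ℕ} (h2 : ∀ i j k, b i = b j → b j = b k → i = j ∨ j = k ∨ i = k)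
    (s : ℝ) {k : MN N} (hk : k ∈ GLb b) (hU : IsU k) : kb b s k = 1 := by
  rw [kb_eq24]
  refine Finset.prod_eq_one fun p hp => ?_
  have e1 : (blk2 k p)ᴴ = blk2 kᴴ p := by
    ext i j
    fin_cases i <;> fin_cases j <;> simp [blk2, Matrix.conjTranspose_apply]
  have hks : D b kᴴ = kᴴ := by rw [D_star, hk.1]
  have hUp : IsU (blk2 k p) := by
    unfold IsU
    rw [e1, ← blk2_mul24 h2 hks k hp]
    have : kᴴ * k = 1 := hU
    rw [this, blk2_one24 hp]
  obtain ⟨h3, h4⟩ := ns_unitary _ hUp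
  rw [kf, h3, h4]
  norm_num

private lemma blk2_cont24 (p : Fin N × Fin N) : Continuous fun C : MN N => blk2 C p := by
  refine continuous_matrix fun i j => ?_
  fin_cases i <;> fin_cases j
  · exact continuous_id.matrix_elem p.1 p.1
  · exact continuous_id.matrix_elem p.1 p.2
  · exact continuous_id.matrix_elem p.2 p.1
  · exact continuous_id.matrix_elem p.2 p.2

private lemma kb_cont24 {b : Fin N → ℕ} (h2 : ∀ i j k, b i = b j → b j = b k → i = j ∨ j = k ∨ i = k)
    (s : ℝ) {x B₀ : MN N} (hx : x ∈ GLb b) (hB₀ : B₀ ∈ GLb b) :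
    Tendsto (fun B : MN N => kb b s ((B₀ * x)⁻¹ * (B * x))) (𝓝[GLb b] B₀) (𝓝 1) := by
  have hB₀x : B₀ * x ∈ GLb b := GLb_mul b hB₀ hx
  have h1 : Tendsto (fun B : MN N => ∏ p ∈ prs b, kf s ((blk2 (B₀ * x) p)⁻¹ * blk2 (B * x) p))
      (𝓝[GLb b] B₀) (𝓝 (∏ p ∈ prs b, (1 : ℝ))) := by
    refine tendsto_finsetProd _ fun p hp => ?_
    have hd := blk2_det24 h2 hB₀x hp
    have h3 := ker_cont (blk2 (B₀ * x) p) hd
    have h4 := h3 (blk2 (B₀ * x) p) hd
    have h5 : Tendsto (fun B : MN N => blk2 (B * x) p) (𝓝[GLb b] B₀)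
        (𝓝[{C : M2 | C.det ≠ 0}] (blk2 (B₀ * x) p)) := by
      rw [tendsto_nhdsWithin_iff]
      refine ⟨?_, ?_⟩
      · have hc : Continuous fun B : MN N => blk2 (B * x) p :=
          (blk2_cont24 p).comp (continuous_id.matrix_mul continuous_const)
        exact (hc.tendsto B₀).mono_left nhdsWithin_le_nhds
      · filter_upwards [self_mem_nhdsWithin] with B hB
        exact blk2_det24 h2 (GLb_mul b hB hx) hp
    have h6 := (h4.tendsto).comp h5
    have h7 : 2 * ‖((blk2 (B₀ * x) p)⁻¹ * blk2 (B₀ * x) p).det‖ /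
        ns ((blk2 (B₀ * x) p)⁻¹ * blk2 (B₀ * x) p) = 1 := by
      rw [Matrix.nonsing_inv_mul _ (isUnit_iff_ne_zero.2 hd)]
      have h : ns (1 : M2) = 2 := (ns_unitary 1 (by simp [IsU])).1
      simp [h]
    rw [h7] at h6
    have h8 := (Real.continuousAt_rpow_const 1 s (Or.inl one_ne_zero)).tendsto.comp h6
    rw [Real.one_rpow] at h8
    exact h8
  rw [Finset.prod_const_one] at h1
  refine h1.congr fun B => ?_
  rw [kb_ker24 h2 s hB₀x]

end h24

theorem exists_fib2 (b : Fin N → ℕ) (h2 : ∀ i j k, b i = b j → b j = b k → i = j ∨ j = k ∨ i = k) (s : ℝ)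
    (hs : 0 < s) : ∃ (L : Type) (_ : NormedAddCommGroup L) (_ : InnerProductSpace ℂ L) (_ : CompleteSpace L)
      (Φ : Pool.Agent.Helper90.RK.Fib b L), ∀ C ∈ GLb b, inner ℂ Φ.v (Φ.π C Φ.v) = ((kb b s C : ℝ) : ℂ) := by
  classical
  obtain ⟨L, i1, i2, i3, e, he, ht⟩ := Pool.Agent.Helper90.Fib.exists_gns (kerb24 b s) (kerb_psd24 h2 hs)
  refine ⟨L, i1, i2, i3, ?_⟩
  have hker : ∀ C E : {C : MN N // C ∈ GLb b}, inner ℂ (e C) (e E) = ((kb b s (C.1⁻¹ * E.1) : ℝ) : ℂ) := he
  have hself : ∀ C : {C : MN N // C ∈ GLb b}, kb b s (C.1⁻¹ * C.1) = 1 := by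
    intro C
    rw [Matrix.nonsing_inv_mul _ (isUnit_iff_ne_zero.2 C.2.2), kb_one24]
  -- norm formula
  have hn : ∀ C E : {C : MN N // C ∈ GLb b}, ‖e C - e E‖ ^ 2 = 2 - 2 * kb b s (C.1⁻¹ * E.1) := by
    intro C E
    have h1 : ‖e C‖ ^ 2 = 1 := by
      rw [← inner_self_eq_norm_sq (𝕜 := ℂ), hker, hself]
      simp
    have h2 : ‖e E‖ ^ 2 = 1 := by
      rw [← inner_self_eq_norm_sq (𝕜 := ℂ), hker, hself]
      simp
    rw [@norm_sub_sq ℂ, h1, h2, hker]
    simp
    ring
  have heq : ∀ C E : {C : MN N // C ∈ GLb b}, kb b s (C.1⁻¹ * E.1) = 1 → e C = e E := by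
    intro C E h
    have h1 := hn C E
    rw [h] at h1
    have h2 : ‖e C - e E‖ = 0 := by nlinarith [norm_nonneg (e C - e E)]
    exact sub_eq_zero.1 (norm_eq_zero.1 h2)
  have hm : ∀ (B : MN N) (hB : B ∈ GLb b) (C : {C : MN N // C ∈ GLb b}), B * C.1 ∈ GLb b :=
    fun B hB C => GLb_mul b hB C.2
  -- the unitary of B
  have hU : ∀ B : MN N, ∃ U : L ≃ₗᵢ[ℂ] L, ∀ (hB : B ∈ GLb b) (C : {C : MN N // C ∈ GLb b}),
      U (e C) = e ⟨B * C.1, hm B hB C⟩ := by
    intro B
    by_cases hB : B ∈ GLb b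
    · obtain ⟨U, hU⟩ := Pool.Agent.Helper90.Fib.exists_unitary e
        (fun C : {C : MN N // C ∈ GLb b} => e ⟨B * C.1, hm B hB C⟩) (by
        intro C E
        rw [hker, hker]
        congr 2
        simp only
        rw [Matrix.mul_inv_rev, Matrix.mul_assoc, ← Matrix.mul_assoc B⁻¹ B E.1,
          Matrix.nonsing_inv_mul _ (isUnit_iff_ne_zero.2 hB.2), Matrix.one_mul]) ht (by
        have h1 : Set.range (fun C : {C : MN N // C ∈ GLb b} => e ⟨B * C.1, hm B hB C⟩) =
            Set.range e := by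
          apply Set.Subset.antisymm
          · rintro _ ⟨C, rfl⟩
            exact ⟨_, rfl⟩
          · rintro _ ⟨C, rfl⟩
            refine ⟨⟨B⁻¹ * C.1, hm _ (GLb_inv b hB) C⟩, ?_⟩
            simp only
            congr 1
            apply Subtype.ext
            simp only
            rw [← Matrix.mul_assoc, Matrix.mul_nonsing_inv _ (isUnit_iff_ne_zero.2 hB.2), Matrix.one_mul]
        rw [h1]
        exact ht)
      exact ⟨U, fun _ C => hU C⟩
    · exact ⟨1, fun h => absurd h hB⟩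
  choose U hU using hU
  have h1d : (1 : MN N) ∈ GLb b := GLb_one b
  let Φ : Pool.Agent.Helper90.RK.Fib b L :=
    { π := U
      mul := by
        intro C E hC hE w
        have hCE : C * E ∈ GLb b := GLb_mul b hC hE
        have := Pool.Agent.Helper90.Fib.eq_of_total e ht
          (S := ((U (C * E)).toContinuousLinearEquiv : L →L[ℂ] L))
          (T := ((U C).toContinuousLinearEquiv : L →L[ℂ] L).comp
            ((U E).toContinuousLinearEquiv : L →L[ℂ] L)) (by
            intro x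
            change U (C * E) (e x) = U C (U E (e x))
            rw [hU _ hCE, hU _ hE, hU _ hC]
            congr 1
            apply Subtype.ext
            exact Matrix.mul_assoc C E x.1) w
        exact this
      scal := by
        intro z C hz hC
        have hzC : diagonal z * C ∈ GLb b := GLb_mul b (diag_mem24 hz) hC
        ext w
        have := Pool.Agent.Helper90.Fib.eq_of_total e ht
          (S := ((U (diagonal z * C)).toContinuousLinearEquiv : L →L[ℂ] L))
          (T := ((U C).toContinuousLinearEquiv : L →L[ℂ] L)) (by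
            intro x
            change U (diagonal z * C) (e x) = U C (e x)
            rw [hU _ hzC, hU _ hC]
            symm
            apply heq
            simp only
            rw [Matrix.mul_assoc]
            exact kb_diag24 h2 s hz (hm C hC x)) w
        exact this
      cont := by
        intro w
        refine Pool.Agent.Helper90.Fib.cont_of_total e ht U (fun x => ?_) w
        intro B₀ hB₀
        rw [ContinuousWithinAt, tendsto_iff_norm_sub_tendsto_zero]
        have hk := kb_cont24 h2 s x.2 hB₀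
        have hsq : Tendsto (fun B : MN N => ‖U B (e x) - U B₀ (e x)‖ ^ 2) (𝓝[GLb b] B₀) (𝓝 0) := by
          have h1 := (hk.const_mul 2).const_sub 2
          have h2 : (2 : ℝ) - 2 * 1 = 0 := by norm_num
          rw [h2] at h1
          refine h1.congr' ?_
          filter_upwards [self_mem_nhdsWithin] with B hB
          rw [hU B hB, hU B₀ hB₀, norm_sub_rev, hn]
        have hsq2 := (Real.continuous_sqrt.tendsto 0).comp hsq
        rw [Real.sqrt_zero] at hsq2
        refine hsq2.congr fun B => ?_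
        exact Real.sqrt_sq (norm_nonneg _)
      v := e ⟨1, h1d⟩
      nv := by
        have h1 : ‖e ⟨1, h1d⟩‖ ^ 2 = 1 := by
          rw [← inner_self_eq_norm_sq (𝕜 := ℂ), hker, hself]
          simp
        nlinarith [norm_nonneg (e ⟨1, h1d⟩)]
      inv := by
        intro k hk hkU
        rw [hU k hk]
        symm
        apply heq
        simp only
        rw [Matrix.mul_one, inv_one, Matrix.one_mul]
        exact kb_unit24 h2 s hk hkU }
  refine ⟨Φ, fun C hC => ?_⟩
  change inner ℂ (e ⟨1, h1d⟩) (U C (e ⟨1, h1d⟩)) = _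
  rw [hU C hC, hker]
  simp only
  rw [Matrix.mul_one, inv_one, Matrix.one_mul]

end Pool.Agent.Helper84.GN
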