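import Pool.Agent.Helper84.GN.SA

/-!
# Project GN / RK, block SB: invariance of `Ua` (adapt `NI/WB.lean`)

ADAPT `Pool/Agent/Helper84/NI/WB.lean`; `Alim_apply`, `Blim_apply`, `comm2_lim` are proved there and can be cited (namespace `NI`, imported).
`perm_mem_Ua`: if `UP.map (ind s) a = a` for all `s ∈ R.F n` then with `n'` from `R.shift g⁻¹ h⁻¹ n`: for `s ∈ R.F n'` the set `{γ : g γ h⁻¹ ∈ s}` is in `R.F n`, and
`ind s (permV (tr g h) f) = permV (tr g h) (ind {γ : g γ h⁻¹ ∈ s} f)`.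
`Ppr_ne_zero`: if `ξ ∈ R.Ua` and `⟪ξ, ζ⟫ ≠ 0` then the projection of `ζ` is not zero.
-/

set_option autoImplicit false

open Filter Topology Matrix

namespace Pool.Agent.Helper84.GN

open NI GVN

variable {G : Type} [Group G] (R : Reg G)

/-- the translation operator -/
private noncomputable abbrev Pg38 (g h : G) : L2 G →L[ℂ] L2 G :=
  ((permV (tr g h) : Lv G ℂ ≃ₗᵢ[ℂ] Lv G ℂ).toContinuousLinearEquiv : L2 G →L[ℂ] L2 G)

private theorem ind_perm38 (g h : G) (A : Set G) (a : UP (L2 G)) :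
    UP.map (ind ℂ A) (UP.map (Pg38 g h) a) =
      UP.map (Pg38 g h) (UP.map (ind ℂ {γ | g * γ * h⁻¹ ∈ A}) a) := by
  rw [← UP.map_comp, ← UP.map_comp]
  refine congrArg (fun T => UP.map T a) ?_
  ext f : 1
  refine lv_ext fun γ => ?_
  change ind ℂ A (permV (tr g h) f) γ = permV (tr g h) (ind ℂ {γ | g * γ * h⁻¹ ∈ A} f) γ
  rw [ind_apply, permV_tr, permV_tr, ind_apply]
  have e : (g⁻¹ * γ * h ∈ {γ | g * γ * h⁻¹ ∈ A}) ↔ γ ∈ A := by
    rw [Set.mem_ofPred_eq]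
    have : g * (g⁻¹ * γ * h) * h⁻¹ = γ := by group
    rw [this]
  by_cases hγ : γ ∈ A
  · rw [if_pos hγ, if_pos (e.2 hγ)]
  · rw [if_neg hγ, if_neg (fun h => hγ (e.1 h))]

private theorem proj38 {H : Type} [NormedAddCommGroup H] [InnerProductSpace ℂ H] {K : Submodule ℂ H}
    [K.HasOrthogonalProjection] (T : H ≃ₗᵢ[ℂ] H)
    (h1 : ∀ x ∈ K, T x ∈ K) (h2 : ∀ x ∈ K, T.symm x ∈ K) (f : H) :
    K.starProjection (T f) = T (K.starProjection f) := by
  apply Submodule.eq_starProjection_of_mem_orthogonal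
  · exact h1 _ (Submodule.starProjection_apply_mem K f)
  · rw [← map_sub, Submodule.mem_orthogonal]
    intro u hu
    have h3 := (Submodule.mem_orthogonal _ _).1 (Submodule.sub_starProjection_mem_orthogonal
      (K := K) f) (T.symm u) (h2 u hu)
    rw [← LinearIsometryEquiv.inner_map_map T, LinearIsometryEquiv.apply_symm_apply] at h3
    exact h3

theorem perm_mem_Ua (g h : G) {a : UP (L2 G)} (ha : a ∈ R.Ua) :
    UP.map ((permV (tr g h) : Lv G ℂ ≃ₗᵢ[ℂ] Lv G ℂ).toContinuousLinearEquiv : L2 G →L[ℂ] L2 G) a ∈ R.Ua := by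
  have hcl : IsClosed (((R.Ua).comap (UP.map (Pg38 g h) : UP (L2 G) →ₗ[ℂ] UP (L2 G)) :
      Submodule ℂ (UP (L2 G))) : Set (UP (L2 G))) := by
    have h1 : IsClosed ((R.Ua) : Set (UP (L2 G))) := Submodule.isClosed_topologicalClosure _
    exact h1.preimage (UP.map (Pg38 g h)).continuous
  have hle : R.Ua ≤ (R.Ua).comap (UP.map (Pg38 g h) : UP (L2 G) →ₗ[ℂ] UP (L2 G)) := by
    refine Submodule.topologicalClosure_minimal _ (Submodule.span_le.mpr ?_) hcl
    rintro a ⟨n, hn⟩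
    change UP.map (Pg38 g h) a ∈ R.Ua
    refine Submodule.le_topologicalClosure _ (Submodule.subset_span ?_)
    obtain ⟨n', hn'⟩ := R.shift g⁻¹ h⁻¹ n
    refine ⟨n', fun s hs => ?_⟩
    have h2 : {γ | g * γ * h⁻¹ ∈ s} ∈ R.F n := by
      have h3 := hn' hs
      rw [inv_inv] at h3
      exact h3
    rw [ind_perm38, hn _ h2]
  exact hle ha

theorem Alim_mem_Ua (g : G) (a : UP (L2 G)) (ha : a ∈ R.Ua) : Alim G g a ∈ R.Ua := by
  rw [Alim_apply]
  exact perm_mem_Ua R g 1 ha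

theorem Blim_mem_Ua (h : G) (a : UP (L2 G)) (ha : a ∈ R.Ua) : Blim G h a ∈ R.Ua := by
  rw [Blim_apply]
  exact perm_mem_Ua R 1 h ha

/-- The left action on `Ua`. -/
noncomputable def AU : G →* (R.Ua ≃ₗᵢ[ℂ] R.Ua) := restrictRep (Alim G) R.Ua (Alim_mem_Ua R)

/-- The right action on `Ua`. -/
noncomputable def BU : G →* (R.Ua ≃ₗᵢ[ℂ] R.Ua) := restrictRep (Blim G) R.Ua (Blim_mem_Ua R)

theorem comm2_U : Comm2 (AU R) (BU R) := by
  intro g h x
  apply Subtype.ext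
  exact comm2_lim g h (x : UP (L2 G))

/-- The projection on `Ua`. -/
noncomputable def Ppr : UP (L2 G) →L[ℂ] R.Ua := R.Ua.orthogonalProjectionOnto

theorem norm_Ppr : ‖Ppr R‖ ≤ 1 := by
  exact Submodule.orthogonalProjectionOnto_norm_le _

theorem Ppr_A (g : G) (a : UP (L2 G)) : Ppr R (Alim G g a) = AU R g (Ppr R a) := by
  apply Subtype.ext
  change (R.Ua).starProjection (Alim G g a) = Alim G g ((R.Ua).starProjection a)
  refine proj38 (Alim G g) (Alim_mem_Ua R g) (fun x hx => ?_) a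
  have h1 := Alim_mem_Ua R g⁻¹ x hx
  rw [map_inv] at h1
  exact h1

theorem Ppr_B (g : G) (a : UP (L2 G)) : Ppr R (Blim G g a) = BU R g (Ppr R a) := by
  apply Subtype.ext
  change (R.Ua).starProjection (Blim G g a) = Blim G g ((R.Ua).starProjection a)
  refine proj38 (Blim G g) (Blim_mem_Ua R g) (fun x hx => ?_) a
  have h1 := Blim_mem_Ua R g⁻¹ x hx
  rw [map_inv] at h1
  exact h1

theorem inner_Ppr (a : UP (L2 G)) (b : R.Ua) : inner ℂ (b : UP (L2 G)) a = inner ℂ b (Ppr R a) := by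
  have h1 := (Submodule.mem_orthogonal _ _).1 (Submodule.sub_starProjection_mem_orthogonal
    (K := R.Ua) a) (b : UP (L2 G)) b.2
  rw [inner_sub_right, sub_eq_zero] at h1
  exact h1

theorem Ppr_ne_zero {ζ ξ : UP (L2 G)} (hξ : ξ ∈ R.Ua) (h : (inner ℂ ξ ζ : ℂ) ≠ 0) : Ppr R ζ ≠ 0 := by
  intro h0
  have h1 := inner_Ppr R ζ ⟨ξ, hξ⟩
  rw [h0, inner_zero_right] at h1
  exact h h1

end Pool.Agent.Helper84.GN
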