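import Pool.Agent.Helper84.GN.SB
import Pool.Agent.Helper84.NI.WD

/-!
# Project GN / RK, block SD: the operators `W(g, h)` on `Vp` (adapt `NI/WD.lean`)

ADAPT `Pool/Agent/Helper84/NI/WD.lean` (all proofs there): `Φ.π (S.C g h γ)` is now `Γ.pi g h γ`; `what_mem` uses `Γ.cpt` and `map_mulF_mem`, `what_mul` uses `Γ.mul` and `map_mulF_zero`.
`mulF_sub'` and `perm_perm` of `NI/WD.lean` can be cited if you import that file (they do not depend on the wall), or copied as private lemmas.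
-/

set_option autoImplicit false

open Filter Topology Matrix

namespace Pool.Agent.Helper84.GN

open NI GVN

variable {G : Type} [Group G] {R : Reg G} {L : Type} [NormedAddCommGroup L] [InnerProductSpace ℂ L]

theorem what_gen' (Γ : Coc R L) (g h : G) {F : G → L} {C : ℝ} (hC : ∀ γ, ‖F γ‖ ≤ C) (a : UP (L2 G)) :
    UP.mapU (What Γ g h) (UP.map (mulF F) a) =
      UP.map (mulF fun γ => Γ.pi g h γ (F (g⁻¹ * γ * h)))
      (UP.map ((permV (tr g h) : Lv G ℂ ≃ₗᵢ[ℂ] Lv G ℂ).toContinuousLinearEquiv : L2 G →L[ℂ] L2 G) a) := by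
  rw [UP.mapU_apply, ← UP.map_comp, ← UP.map_comp]
  refine congrArg (fun T => UP.map T a) ?_
  ext f : 1
  refine lv_ext fun γ => ?_
  have h' : ∀ γ, ‖Γ.pi g h γ (F (g⁻¹ * γ * h))‖ ≤ C := fun γ => by
    rw [LinearIsometryEquiv.norm_map]
    exact hC _
  change What Γ g h (mulF F f) γ = mulF (fun γ => Γ.pi g h γ (F (g⁻¹ * γ * h))) (permV (tr g h) f) γ
  rw [What_apply, mulF_apply hC, mulF_apply h', permV_tr, map_smul]

theorem what_gen (Γ : Coc R L) (g h : G) (w : L) (a : UP (L2 G)) :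
    UP.mapU (What Γ g h) (UP.map (mulF fun _ => w) a) = UP.map (mulF fun γ => Γ.pi g h γ w)
      (UP.map ((permV (tr g h) : Lv G ℂ ≃ₗᵢ[ℂ] Lv G ℂ).toContinuousLinearEquiv : L2 G →L[ℂ] L2 G) a) :=
  what_gen' Γ g h (F := fun _ => w) (fun _ => le_refl ‖w‖) a

theorem what_mem (Γ : Coc R L) (g h : G) (ξ : UP (Lv G L)) (hξ : ξ ∈ R.Vp L) :
    UP.mapU (What Γ g h) ξ ∈ R.Vp L := by
  set T : UP (Lv G L) →L[ℂ] UP (Lv G L) :=
    UP.map ((What Γ g h).toContinuousLinearEquiv : Lv G L →L[ℂ] Lv G L) with hT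
  have hcl : IsClosed (((R.Vp L).comap (T : UP (Lv G L) →ₗ[ℂ] UP (Lv G L)) :
      Submodule ℂ (UP (Lv G L))) : Set (UP (Lv G L))) := by
    have h1 : IsClosed ((R.Vp L) : Set (UP (Lv G L))) :=
      Submodule.isClosed_topologicalClosure _
    exact h1.preimage T.continuous
  have hle : R.Vp L ≤ (R.Vp L).comap (T : UP (Lv G L) →ₗ[ℂ] UP (Lv G L)) := by
    refine Submodule.topologicalClosure_minimal _ (Submodule.span_le.mpr ?_) hcl
    rintro _ ⟨w, a, ha, rfl⟩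
    change UP.mapU (What Γ g h) (UP.map (mulF fun _ => w) a) ∈ R.Vp L
    rw [what_gen]
    exact map_mulF_mem R (C := ‖w‖) (fun γ => by rw [LinearIsometryEquiv.norm_map])
      (fun n => Γ.cpt g h n w) (perm_mem_Ua R g h ha)
  exact hle hξ

theorem what_mul (Γ : Coc R L) (g h g' h' : G) (ξ : UP (Lv G L)) (hξ : ξ ∈ R.Vp L) :
    UP.mapU (What Γ (g * g') (h * h')) ξ = UP.mapU (What Γ g h) (UP.mapU (What Γ g' h') ξ) := by
  set T1 : UP (Lv G L) →L[ℂ] UP (Lv G L) :=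
    UP.map ((What Γ (g * g') (h * h')).toContinuousLinearEquiv : Lv G L →L[ℂ] Lv G L) with hT1
  set T2 : UP (Lv G L) →L[ℂ] UP (Lv G L) :=
    UP.map ((What Γ g h).toContinuousLinearEquiv : Lv G L →L[ℂ] Lv G L) with hT2
  set T3 : UP (Lv G L) →L[ℂ] UP (Lv G L) :=
    UP.map ((What Γ g' h').toContinuousLinearEquiv : Lv G L →L[ℂ] Lv G L) with hT3
  have hcl : IsClosed ((LinearMap.ker ((T1 - T2.comp T3 : UP (Lv G L) →L[ℂ] UP (Lv G L)) :
      UP (Lv G L) →ₗ[ℂ] UP (Lv G L)) : Submodule ℂ (UP (Lv G L))) : Set (UP (Lv G L))) :=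
    ContinuousLinearMap.isClosed_ker _
  have hle : R.Vp L ≤ LinearMap.ker ((T1 - T2.comp T3 : UP (Lv G L) →L[ℂ] UP (Lv G L)) :
      UP (Lv G L) →ₗ[ℂ] UP (Lv G L)) := by
    refine Submodule.topologicalClosure_minimal _ (Submodule.span_le.mpr ?_) hcl
    rintro _ ⟨w, a, ha, rfl⟩
    rw [SetLike.mem_coe, LinearMap.mem_ker]
    change UP.mapU (What Γ (g * g') (h * h')) (UP.map (mulF fun _ => w) a) -
      UP.mapU (What Γ g h) (UP.mapU (What Γ g' h') (UP.map (mulF fun _ => w) a)) = 0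
    have b1 : ∀ γ, ‖Γ.pi g' h' γ w‖ ≤ ‖w‖ := fun γ => by rw [LinearIsometryEquiv.norm_map]
    have b2 : ∀ γ, ‖Γ.pi (g * g') (h * h') γ w‖ ≤ ‖w‖ := fun γ => by
      rw [LinearIsometryEquiv.norm_map]
    have b3 : ∀ γ, ‖Γ.pi g h γ (Γ.pi g' h' (g⁻¹ * γ * h) w)‖ ≤ ‖w‖ := fun γ => by
      rw [LinearIsometryEquiv.norm_map, LinearIsometryEquiv.norm_map]
    have b4 : ∀ γ, ‖Γ.pi (g * g') (h * h') γ w -
        Γ.pi g h γ (Γ.pi g' h' (g⁻¹ * γ * h) w)‖ ≤ ‖w‖ + ‖w‖ := fun γ =>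
      (norm_sub_le _ _).trans (add_le_add (b2 γ) (b3 γ))
    rw [what_gen, what_gen, what_gen' Γ g h b1, perm_perm]
    rw [← UP.map_sub, mulF_sub' b2 b3]
    exact map_mulF_zero R b4 (fun n => Γ.mul g h g' h' n w) (perm_mem_Ua R _ _ ha)
  have h1 := hle hξ
  rw [LinearMap.mem_ker] at h1
  exact sub_eq_zero.mp h1

theorem what_one (Γ : Coc R L) (ξ : UP (Lv G L)) : UP.mapU (What Γ 1 1) ξ = ξ := by
  rw [UP.mapU_apply]
  refine Eq.trans (congrArg (fun T => UP.map T ξ) ?_) (UP.map_id ξ)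
  ext f : 1
  refine lv_ext fun γ => ?_
  change What Γ 1 1 f γ = f γ
  rw [What_apply, Γ.one, inv_one, one_mul, mul_one]

end Pool.Agent.Helper84.GN
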