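import Pool.Agent.Helper84.GN.SD
import Pool.Agent.Helper84.NI.WF

/-!
# Project GN / RK, block SE: the two commuting representations on `Vp`, the sections (adapt `NI/WE.lean`, `NI/WF.lean`)

ADAPT `Pool/Agent/Helper84/NI/WE.lean` and `WF.lean` (all proofs there): `Φ.π (S.C g h γ)` is `Γ.pi g h γ`, `Φ.π (S.X γ) Φ.v` is `Γ.vX γ`, `Φ.v` is `Γ.v`.
`TL_mem`: `map_mulF_mem` with `Γ.cptX`. `TR_A`: `Γ.left`, `map_mulF_zero`. `TL_B`: `Γ.right`, `map_mulF_zero`. `mulop`, `norm_map_mulF` are in namespace `NI` (imported).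
-/

set_option autoImplicit false

open Filter Topology Matrix

namespace Pool.Agent.Helper84.GN

open NI GVN

variable {G : Type} [Group G] {R : Reg G} {L : Type} [NormedAddCommGroup L] [InnerProductSpace ℂ L]
  (Γ : Coc R L)

/-- The left action on `Vp`. -/
noncomputable def AV : G →* (R.Vp L ≃ₗᵢ[ℂ] R.Vp L) :=
  partialRep (fun g => UP.mapU (What Γ g 1)) (R.Vp L) (fun g x hx => what_mem Γ g 1 x hx)
    (fun x _ => what_one Γ x) (fun g g' x hx => by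
      have h := what_mul Γ g 1 g' 1 x hx
      rwa [mul_one] at h)

/-- The right action on `Vp`. -/
noncomputable def BV : G →* (R.Vp L ≃ₗᵢ[ℂ] R.Vp L) :=
  partialRep (fun h => UP.mapU (What Γ 1 h)) (R.Vp L) (fun h x hx => what_mem Γ 1 h x hx)
    (fun x _ => what_one Γ x) (fun h h' x hx => by
      have h := what_mul Γ 1 h 1 h' x hx
      rwa [mul_one] at h)

theorem coe_AV (g : G) (x : R.Vp L) : (AV Γ g x : UP (Lv G L)) = UP.mapU (What Γ g 1) x := rfl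

theorem coe_BV (g : G) (x : R.Vp L) : (BV Γ g x : UP (Lv G L)) = UP.mapU (What Γ 1 g) x := rfl

theorem comm2_V : Comm2 (AV Γ) (BV Γ) := by
  intro g h x
  apply Subtype.ext
  rw [coe_AV, coe_BV, coe_BV, coe_AV, ← what_mul Γ g 1 1 h x x.2, ← what_mul Γ 1 h g 1 x x.2,
    mul_one, one_mul, one_mul, mul_one]

theorem TR_mem (a : UP (L2 G)) (ha : a ∈ R.Ua) : UP.map (mulF fun _ => Γ.v) a ∈ R.Vp L :=
  Submodule.le_topologicalClosure _ (Submodule.subset_span ⟨Γ.v, a, ha, rfl⟩)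

theorem TL_mem (a : UP (L2 G)) (ha : a ∈ R.Ua) : UP.map (mulF fun γ => Γ.vX γ) a ∈ R.Vp L := by
  exact map_mulF_mem R (C := 1) (fun γ => (Γ.nvX γ).le) (fun n => Γ.cptX n) ha

/-- The left-equivariant section. -/
noncomputable def TR : R.Ua →ₗᵢ[ℂ] R.Vp L where
  toFun a := ⟨UP.map (mulF fun _ => Γ.v) a, TR_mem Γ a a.2⟩
  map_add' a b := Subtype.ext (map_add (UP.map (mulF fun _ => Γ.v)) _ _)
  map_smul' c a := Subtype.ext (map_smul (UP.map (mulF fun _ => Γ.v)) _ _)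
  norm_map' a := norm_map_mulF (fun _ => Γ.nv) (a : UP (L2 G))

/-- The right-equivariant section. -/
noncomputable def TL : R.Ua →ₗᵢ[ℂ] R.Vp L where
  toFun a := ⟨UP.map (mulF fun γ => Γ.vX γ) a, TL_mem Γ a a.2⟩
  map_add' a b := Subtype.ext (map_add (UP.map (mulF fun γ => Γ.vX γ)) _ _)
  map_smul' c a := Subtype.ext (map_smul (UP.map (mulF fun γ => Γ.vX γ)) _ _)
  norm_map' a := norm_map_mulF (fun γ => Γ.nvX γ) (a : UP (L2 G))

theorem TR_A (g : G) (a : R.Ua) : TR Γ (AU R g a) = AV Γ g (TR Γ a) := by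
  apply Subtype.ext
  rw [coe_AV]
  change UP.map (mulF fun _ => Γ.v) (Alim G g (a : UP (L2 G))) =
    UP.mapU (What Γ g 1) (UP.map (mulF fun _ => Γ.v) (a : UP (L2 G)))
  rw [what_gen, Alim_apply]
  have b1 : ∀ γ : G, ‖(fun _ : G => Γ.v) γ‖ ≤ ‖Γ.v‖ := fun _ => le_rfl
  have b2 : ∀ γ, ‖Γ.pi g 1 γ Γ.v‖ ≤ ‖Γ.v‖ := fun γ => by rw [LinearIsometryEquiv.norm_map]
  rw [← sub_eq_zero, ← UP.map_sub, mulF_sub' b1 b2]
  refine map_mulF_zero R (C := ‖Γ.v‖ + ‖Γ.v‖)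
    (fun γ => (norm_sub_le _ _).trans (add_le_add (b1 γ) (b2 γ)))
    (fun n => ?_) (perm_mem_Ua R g 1 a.2)
  have h := (Γ.left g n).neg
  rw [neg_zero] at h
  exact h.congr fun γ => neg_sub _ _

theorem TL_B (g : G) (a : R.Ua) : TL Γ (BU R g a) = BV Γ g (TL Γ a) := by
  apply Subtype.ext
  rw [coe_BV]
  change UP.map (mulF fun γ => Γ.vX γ) (Blim G g (a : UP (L2 G))) =
    UP.mapU (What Γ 1 g) (UP.map (mulF fun γ => Γ.vX γ) (a : UP (L2 G)))
  have b0 : ∀ γ, ‖Γ.vX γ‖ ≤ 1 := fun γ => (Γ.nvX γ).le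
  have b2 : ∀ γ, ‖Γ.pi 1 g γ (Γ.vX (1⁻¹ * γ * g))‖ ≤ 1 := fun γ => by
    rw [LinearIsometryEquiv.norm_map]
    exact b0 _
  rw [what_gen' Γ 1 g b0, Blim_apply]
  rw [← sub_eq_zero, ← UP.map_sub, mulF_sub' b0 b2]
  refine map_mulF_zero R (C := 1 + 1)
    (fun γ => (norm_sub_le _ _).trans (add_le_add (b0 γ) (b2 γ)))
    (fun n => ?_) (perm_mem_Ua R 1 g a.2)
  have h := (Γ.right g n).neg
  rw [neg_zero] at h
  exact h.congr fun γ => neg_sub _ _

theorem inner_TL_TR (a b : R.Ua) : inner ℂ (TL Γ a) (TR Γ b) =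
    inner ℂ (a : UP (L2 G)) (UP.map (mulop fun γ => inner ℂ (Γ.vX γ) Γ.v) (b : UP (L2 G))) := by
  have b0 : ∀ γ, ‖Γ.vX γ‖ ≤ 1 := fun γ => (Γ.nvX γ).le
  have b1 : ∀ γ : G, ‖(fun _ : G => Γ.v) γ‖ ≤ 1 := fun _ => Γ.nv.le
  set f : G → ℂ := fun γ => inner ℂ (Γ.vX γ) Γ.v with hf
  have hfb : ∀ γ, ‖f γ‖ ≤ 1 := fun γ => by
    refine (norm_inner_le_norm _ _).trans ?_
    rw [Γ.nvX, Γ.nv, one_mul]
  have hmul : ∀ (x : L2 G) (γ : G), mulop f x γ = f γ * x γ := by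
    intro x γ
    unfold mulop
    rw [dg_apply (C := 1) (fun i y => by
      rw [_root_.smul_apply, norm_smul]
      exact mul_le_mul_of_nonneg_right (hfb i) (norm_nonneg _))]
    rw [_root_.smul_apply, ContinuousLinearMap.id_apply, smul_eq_mul]
  have key : ∀ x y : L2 G, inner ℂ (mulF (fun γ => Γ.vX γ) x) (mulF (fun _ : G => Γ.v) y) =
      inner ℂ x (mulop f y) := by
    intro x y
    refine (lv_inner _ _).unique ?_
    have e : (fun γ => inner ℂ (mulF (fun γ => Γ.vX γ) x γ) (mulF (fun _ : G => Γ.v) y γ)) =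
        fun γ => inner ℂ (x γ) (mulop f y γ) := by
      funext γ
      rw [mulF_apply b0, mulF_apply b1, hmul, inner_smul_left, inner_smul_right, RCLike.inner_apply]
      ring
    rw [e]
    exact lv_inner x (mulop f y)
  change inner ℂ (UP.map (mulF fun γ => Γ.vX γ) (a : UP (L2 G)))
    (UP.map (mulF fun _ => Γ.v) (b : UP (L2 G))) = _
  refine UP.ext_fun (f := fun ξ => inner ℂ (UP.map (mulF fun γ => Γ.vX γ) ξ)
    (UP.map (mulF fun _ => Γ.v) (b : UP (L2 G)))) (g := fun ξ => inner ℂ ξ (UP.map (mulop f) (b : UP (L2 G))))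
    (by fun_prop) (by fun_prop) (fun x => ?_) (a : UP (L2 G))
  refine UP.ext_fun (f := fun η => inner ℂ (UP.map (mulF fun γ => Γ.vX γ) (UP.mk x))
    (UP.map (mulF fun _ => Γ.v) η)) (g := fun η => inner ℂ (UP.mk x) (UP.map (mulop f) η))
    (by fun_prop) (by fun_prop) (fun y => ?_) (b : UP (L2 G))
  simp only [UP.map_mk]
  refine tendsto_nhds_unique (UP.tendsto_inner _ _) ((UP.tendsto_inner _ _).congr fun n => ?_)
  exact (key (x.1 n) (y.1 n)).symm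

end Pool.Agent.Helper84.GN
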