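import Pool.Agent.Helper84.GN.SE

/-!
# Project GN / RK, block SX: the approximation property (adapt `NI/XC.lean` (carrier) and `NI/XD.lean`)

ADAPT `Pool/Agent/Helper84/NI/XD.lean` and the lemma `carrier` of `NI/XC.lean`. The multiplier `Ψ.mu (mt D S γ t)` is now `D.mo γ t` (`D : Mul Γ Q ε`), so all the facts about `mu` and `mt` are
the fields `off`, `sum` (hence `‖mo γ t f‖ ≤ ‖f‖`), `cpt`, `left`, `right` of `D`. `carrier`: the vectors `ξ ∈ R.Vp L` with `UP.map (ind L s) ξ = ξ` for all `s ∈ R.F n`, some `n` (`R.monoF` for finite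
sums), are dense in `R.Vp L`. For the right defect: let `η` be carried by all the sets of `R.F n`; with `n'` from `R.shift 1 h⁻¹ n` and `s ∈ R.F n'` the set where the estimate of `D.right` holds, the set
`s' = {γ : γ h⁻¹ ∈ s}` is in `R.F n`, so `η = UP.map (ind L s') η` and the estimate holds at every `γ` with `γ h ∈ s'`.
-/

set_option autoImplicit false

open Filter Topology Matrix

namespace Pool.Agent.Helper84.GN

open NI GVN

variable {G : Type} [Group G] {R : Reg G} {L : Type} [NormedAddCommGroup L] [InnerProductSpace ℂ L]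
  [CompleteSpace L] (Γ : Coc R L)

private theorem sx_ind_comp {I : Type} {A B : Set I} (h : A ⊆ B) (L : Type) [NormedAddCommGroup L]
    [InnerProductSpace ℂ L] : (ind L B).comp (ind L A) = ind L A := by
  classical
  refine ContinuousLinearMap.ext fun f => lv_ext fun i => ?_
  rw [ContinuousLinearMap.comp_apply, ind_apply, ind_apply]
  by_cases hi : i ∈ A
  · rw [if_pos (h hi)]
  · rw [if_neg hi, ite_self]

omit [Group G] [CompleteSpace L] in
private theorem sx_ind_mulF (A : Set G) (w : L) :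
    (ind L A).comp (mulF fun _ => w) = (mulF fun _ => w).comp (ind ℂ A) := by
  classical
  refine ContinuousLinearMap.ext fun f => lv_ext fun i => ?_
  rw [ContinuousLinearMap.comp_apply, ContinuousLinearMap.comp_apply, ind_apply,
    mulF_apply (C := ‖w‖) (fun _ => le_rfl), mulF_apply (C := ‖w‖) (fun _ => le_rfl), ind_apply]
  by_cases hA : i ∈ A <;> simp [hA]

private theorem sx_mono (R : Reg G) {n n' : ℕ} (h : n ≤ n') : R.F n ≤ R.F n' := by
  induction n', h using Nat.le_induction with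
  | base => exact le_rfl
  | succ m _ ih => exact ih.trans (R.monoF m)

/-- the carried vectors as a submodule -/
private def sxV (R : Reg G) (L : Type) [NormedAddCommGroup L] [InnerProductSpace ℂ L] :
    Submodule ℂ (UP (Lv G L)) where
  carrier := {η : UP (Lv G L) | η ∈ R.Vp L ∧ ∃ n : ℕ, ∀ s ∈ R.F n, UP.map (ind L s) η = η}
  add_mem' := by
    rintro a b ⟨ha, n, h1⟩ ⟨hb, n', h2⟩
    refine ⟨Submodule.add_mem _ ha hb, max n n', fun s hs => ?_⟩
    rw [map_add, h1 s (sx_mono R (le_max_left n n') hs), h2 s (sx_mono R (le_max_right n n') hs)]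
  zero_mem' := ⟨Submodule.zero_mem _, 0, fun E _ => map_zero _⟩
  smul_mem' := by
    rintro c a ⟨ha, n, h1⟩
    refine ⟨Submodule.smul_mem _ c ha, n, fun E hE => ?_⟩
    rw [map_smul, h1 E hE]

omit [CompleteSpace L] in
theorem carrier {ξ : UP (Lv G L)} (hξ : ξ ∈ R.Vp L) :
    ξ ∈ closure {η : UP (Lv G L) | η ∈ R.Vp L ∧ ∃ n : ℕ, ∀ s ∈ R.F n, UP.map (ind L s) η = η} := by
  have hle : R.Vp L ≤ (sxV R L).topologicalClosure := by
    refine Submodule.topologicalClosure_minimal _ ?_ (Submodule.isClosed_topologicalClosure _)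
    rw [Submodule.span_le]
    rintro η ⟨w, a, ha, rfl⟩
    have hle2 : R.Ua ≤ ((sxV R L).topologicalClosure).comap
        (UP.map (mulF fun _ => w) : UP (L2 G) →L[ℂ] UP (Lv G L)).toLinearMap := by
      refine Submodule.topologicalClosure_minimal _ ?_ ?_
      · rw [Submodule.span_le]
        rintro b ⟨n, hb⟩
        refine Submodule.le_topologicalClosure _ ?_
        have hbU : b ∈ R.Ua := Submodule.le_topologicalClosure _ (Submodule.subset_span ⟨n, hb⟩)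
        refine ⟨Submodule.le_topologicalClosure _ (Submodule.subset_span ⟨w, b, hbU, rfl⟩), n, ?_⟩
        intro s hs
        show UP.map (ind L s) (UP.map (mulF fun _ => w) b) = UP.map (mulF fun _ => w) b
        rw [← UP.map_comp, sx_ind_mulF, UP.map_comp, hb s hs]
      · exact (Submodule.isClosed_topologicalClosure (sxV R L)).preimage
          (UP.map (mulF fun _ => w) : UP (L2 G) →L[ℂ] UP (Lv G L)).continuous
    exact hle2 ha
  have h := hle hξ
  rw [← SetLike.mem_coe, Submodule.topologicalClosure_coe] at h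
  exact h

section Aux

variable {Γ} {Q : Finset G} {ε : ℝ}

omit [CompleteSpace L] in
private theorem sx_le (D : Mul Γ Q ε) (γ t : G) (f : L) : ‖D.mo γ t f‖ ≤ 1 * ‖f‖ := by
  by_cases ht : t ∈ D.supp
  · have h := Finset.single_le_sum (f := fun t => ‖D.mo γ t f‖ ^ 2) (fun _ _ => sq_nonneg _) ht
    rw [D.sum] at h
    rw [one_mul]
    exact (sq_le_sq₀ (norm_nonneg _) (norm_nonneg _)).1 h
  · rw [D.off γ t ht, ContinuousLinearMap.zero_apply, norm_zero, one_mul]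
    exact norm_nonneg _

/-- the multipliers on `ℓ²(G; L)` -/
private noncomputable def sxM (D : Mul Γ Q ε) (t : G) : Lv G L →L[ℂ] Lv G L :=
  dg fun γ => D.mo γ t

omit [CompleteSpace L] in
private theorem sxM_apply (D : Mul Γ Q ε) (t : G) (f : Lv G L) (γ : G) :
    sxM D t f γ = D.mo γ t (f γ) :=
  dg_apply (C := 1) (fun γ f => sx_le D γ t f) f γ

omit [CompleteSpace L] in
private theorem sxM_zero (D : Mul Γ Q ε) {t : G} (ht : t ∉ D.supp) : sxM D t = 0 := by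
  refine ContinuousLinearMap.ext fun f => lv_ext fun γ => ?_
  rw [sxM_apply, D.off γ t ht]
  rfl

omit [CompleteSpace L] in
private theorem sxM_mulF (D : Mul Γ Q ε) (t : G) {F : G → L} {C : ℝ}
    (hC : ∀ γ, ‖F γ‖ ≤ C) (a : UP (L2 G)) :
    UP.map (sxM D t) (UP.map (mulF F) a) = UP.map (mulF fun γ => D.mo γ t (F γ)) a := by
  rw [← UP.map_comp]
  have h : (sxM D t).comp (mulF F) = mulF fun γ => D.mo γ t (F γ) := by
    refine ContinuousLinearMap.ext fun f => lv_ext fun γ => ?_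
    rw [ContinuousLinearMap.comp_apply, sxM_apply, mulF_apply hC, mulF_apply (C := C), map_smul]
    intro γ
    refine (sx_le D γ t _).trans ?_
    rw [one_mul]
    exact hC γ
  rw [h]

omit [CompleteSpace L] in
private theorem sx_eqOn {T T' : UP (Lv G L) →L[ℂ] UP (Lv G L)}
    (h : ∀ (w : L) (a : UP (L2 G)), a ∈ R.Ua →
      T (UP.map (mulF fun _ => w) a) = T' (UP.map (mulF fun _ => w) a))
    {ξ : UP (Lv G L)} (hξ : ξ ∈ R.Vp L) : T ξ = T' ξ := by
  have hle : R.Vp L ≤ LinearMap.eqLocus (T : UP (Lv G L) →ₗ[ℂ] UP (Lv G L)) T' := by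
    refine Submodule.topologicalClosure_minimal _ (Submodule.span_le.2 ?_) ?_
    · rintro _ ⟨w, a, ha, rfl⟩
      exact h w a ha
    · exact isClosed_eq T.continuous T'.continuous
  exact hle hξ

omit [CompleteSpace L] in
private theorem sx_mapsTo {T : UP (Lv G L) →L[ℂ] UP (Lv G L)}
    (h : ∀ (w : L) (a : UP (L2 G)), a ∈ R.Ua → T (UP.map (mulF fun _ => w) a) ∈ R.Vp L)
    {ξ : UP (Lv G L)} (hξ : ξ ∈ R.Vp L) : T ξ ∈ R.Vp L := by
  have hle : R.Vp L ≤ (R.Vp L).comap (T : UP (Lv G L) →ₗ[ℂ] UP (Lv G L)) := by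
    refine Submodule.topologicalClosure_minimal _ (Submodule.span_le.2 ?_) ?_
    · rintro _ ⟨w, a, ha, rfl⟩
      exact h w a ha
    · exact (Submodule.isClosed_topologicalClosure _).preimage T.continuous
  exact hle hξ

omit [CompleteSpace L] in
private theorem sxM_mem (D : Mul Γ Q ε) (t : G) {ξ : UP (Lv G L)}
    (hξ : ξ ∈ R.Vp L) : UP.map (sxM D t) ξ ∈ R.Vp L := by
  refine sx_mapsTo (fun w a ha => ?_) hξ
  rw [sxM_mulF D t (C := ‖w‖) (fun _ => le_rfl)]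
  obtain ⟨K, hK, hK'⟩ := D.cpt t w
  refine map_mulF_mem R (C := ‖w‖) (fun γ => ?_) (fun n => ⟨K, hK, Eventually.of_forall hK'⟩) ha
  refine (sx_le D γ t _).trans ?_
  rw [one_mul]

omit [CompleteSpace L] in
private theorem sxM_sum (D : Mul Γ Q ε) (x : Lv G L) :
    ∑ t ∈ D.supp, ‖sxM D t x‖ ^ 2 = ‖x‖ ^ 2 := by
  have h1 : HasSum (fun γ => ∑ t ∈ D.supp, ‖sxM D t x γ‖ ^ 2)
      (∑ t ∈ D.supp, ‖sxM D t x‖ ^ 2) := hasSum_sum fun t _ => lv_hasSum (sxM D t x)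
  have h2 : (fun γ => ∑ t ∈ D.supp, ‖sxM D t x γ‖ ^ 2) = fun γ => ‖x γ‖ ^ 2 := by
    funext γ
    simp only [sxM_apply]
    exact D.sum γ (x γ)
  rw [h2] at h1
  exact h1.unique (lv_hasSum x)

omit [Group G] [CompleteSpace L] in
private theorem sx_mulF_sub {F F' : G → L} {C C' : ℝ} (hC : ∀ γ, ‖F γ‖ ≤ C)
    (hC' : ∀ γ, ‖F' γ‖ ≤ C') : mulF F - mulF F' = mulF fun γ => F γ - F' γ := by
  refine ContinuousLinearMap.ext fun f => lv_ext fun γ => ?_
  rw [mulF_apply (C := C + C') (fun γ => (norm_sub_le _ _).trans (add_le_add (hC γ) (hC' γ))),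
    smul_sub, ← mulF_apply hC, ← mulF_apply hC']
  rfl

omit [CompleteSpace L] in
private theorem sxM_comm (D : Mul Γ Q ε) (t g : G) {ξ : UP (Lv G L)}
    (hξ : ξ ∈ R.Vp L) :
    UP.map (sxM D t) (UP.mapU (What Γ g 1) ξ) =
      UP.mapU (What Γ g 1) (UP.map (sxM D t) ξ) := by
  refine sx_eqOn (R := R) (T := (UP.map (sxM D t)).comp
      ((UP.mapU (What Γ g 1)).toContinuousLinearEquiv : UP (Lv G L) →L[ℂ] UP (Lv G L)))
    (T' := ((UP.mapU (What Γ g 1)).toContinuousLinearEquiv :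
      UP (Lv G L) →L[ℂ] UP (Lv G L)).comp (UP.map (sxM D t))) (fun w a ha => ?_) hξ
  change UP.map (sxM D t) (UP.mapU (What Γ g 1) (UP.map (mulF fun _ => w) a)) =
    UP.mapU (What Γ g 1) (UP.map (sxM D t) (UP.map (mulF fun _ => w) a))
  have hb : ∀ γ : G, ‖D.mo γ t w‖ ≤ ‖w‖ := fun γ => by
    have := sx_le D γ t w
    rwa [one_mul] at this
  have hb1 : ∀ γ : G, ‖D.mo γ t (Γ.pi g 1 γ w)‖ ≤ ‖w‖ := fun γ => by
    have := sx_le D γ t (Γ.pi g 1 γ w)
    rwa [one_mul, LinearIsometryEquiv.norm_map] at this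
  have hb2 : ∀ γ : G, ‖Γ.pi g 1 γ (D.mo (g⁻¹ * γ * 1) t w)‖ ≤ ‖w‖ := fun γ => by
    rw [LinearIsometryEquiv.norm_map]
    exact hb _
  rw [what_gen' Γ g 1 (F := fun _ => w) (C := ‖w‖) (fun _ => le_rfl),
    sxM_mulF D t (C := ‖w‖) (fun γ => by
      rw [LinearIsometryEquiv.norm_map]), sxM_mulF D t (C := ‖w‖) (fun _ => le_rfl),
    what_gen' Γ g 1 hb, ← sub_eq_zero, ← UP.map_sub, sx_mulF_sub hb1 hb2]
  exact map_mulF_zero R (C := ‖w‖ + ‖w‖)
    (fun γ => (norm_sub_le _ _).trans (add_le_add (hb1 γ) (hb2 γ))) (fun n => D.left t g n w)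
    (perm_mem_Ua R g 1 ha)

/-- the defect of the equivariance on the right -/
private noncomputable def sxT (D : Mul Γ Q ε) (h t : G) : Lv G L →L[ℂ] Lv G L :=
  (sxM D t).comp ((What Γ 1 h).toContinuousLinearEquiv : Lv G L →L[ℂ] Lv G L) -
    ((What Γ 1 h).toContinuousLinearEquiv : Lv G L →L[ℂ] Lv G L).comp (sxM D (h⁻¹ * t))

omit [CompleteSpace L] in
private theorem sxT_apply (D : Mul Γ Q ε) (h t : G) (f : Lv G L) (γ : G) :
    sxT D h t f γ = D.mo γ t (Γ.pi 1 h γ (f (1⁻¹ * γ * h))) -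
      Γ.pi 1 h γ (D.mo (1⁻¹ * γ * h) (h⁻¹ * t) (f (1⁻¹ * γ * h))) := by
  change sxM D t (What Γ 1 h f) γ - What Γ 1 h (sxM D (h⁻¹ * t) f) γ = _
  rw [sxM_apply, What_apply, What_apply, sxM_apply]

omit [CompleteSpace L] in
private theorem sxT_map (D : Mul Γ Q ε) (h t : G) (ξ : UP (Lv G L)) :
    UP.map (sxT D h t) ξ = UP.map (sxM D t) (UP.mapU (What Γ 1 h) ξ) -
      UP.mapU (What Γ 1 h) (UP.map (sxM D (h⁻¹ * t)) ξ) := by
  unfold sxT
  rw [UP.map_sub, UP.map_comp, UP.map_comp, UP.mapU_apply, UP.mapU_apply]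

omit [Group G] [CompleteSpace L] in
private theorem sx_ind_le (A : Set G) (x : Lv G L) : ‖ind L A x‖ ≤ ‖x‖ := by
  refine (sq_le_sq₀ (norm_nonneg _) (norm_nonneg _)).1 ?_
  refine hasSum_le (fun γ => ?_) (lv_hasSum (ind L A x)) (lv_hasSum x)
  rw [ind_apply]
  split_ifs
  · exact le_rfl
  · rw [norm_zero, zero_pow two_ne_zero]
    exact sq_nonneg _

omit [CompleteSpace L] in
private theorem sxT_bound (D : Mul Γ Q ε) {h : G} (hh : h ∈ Q) (n : ℕ) :
    ∃ A ∈ R.F n, ∀ (x : Lv G L) (s : Finset G),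
      ∑ t ∈ s, ‖sxT D h t (ind L A x)‖ ^ 2 ≤ ε ^ 2 * ‖x‖ ^ 2 := by
  obtain ⟨n', hn'⟩ := R.shift 1 h⁻¹ n
  have hA := hn'.eventually (D.right h hh n')
  refine ⟨_, hA, fun x s => ?_⟩
  set A : Set G := {γ | ∀ (s : Finset G) (f : L), ∑ t ∈ s,
    ‖D.mo (1⁻¹ * γ * h⁻¹) t (Γ.pi 1 h (1⁻¹ * γ * h⁻¹) f) - Γ.pi 1 h (1⁻¹ * γ * h⁻¹)
      (D.mo (1⁻¹ * (1⁻¹ * γ * h⁻¹) * h) (h⁻¹ * t) f)‖ ^ 2 ≤ ε ^ 2 * ‖f‖ ^ 2} with hAdef
  set y : Lv G L := ind L A x with hy
  -- pointwise estimate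
  have hpt : ∀ γ, ∑ t ∈ s, ‖sxT D h t y γ‖ ^ 2 ≤ ε ^ 2 * ‖y (1⁻¹ * γ * h)‖ ^ 2 := by
    intro γ
    by_cases hγ : 1⁻¹ * γ * h ∈ A
    · have h1 := hγ s (y (1⁻¹ * γ * h))
      have e1 : (1 : G)⁻¹ * (1⁻¹ * γ * h) * h⁻¹ = γ := by group
      rw [e1] at h1
      refine le_trans (le_of_eq ?_) h1
      refine Finset.sum_congr rfl fun t _ => ?_
      rw [sxT_apply]
    · have h0 : y (1⁻¹ * γ * h) = 0 := by
        rw [hy, ind_apply, if_neg hγ]
      have h1 : ∑ t ∈ s, ‖sxT D h t y γ‖ ^ 2 = 0 := by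
        refine Finset.sum_eq_zero fun t _ => ?_
        rw [sxT_apply, h0, map_zero, map_zero, map_zero, map_zero, sub_zero, norm_zero]
        norm_num
      rw [h1, h0, norm_zero]
      norm_num
  have s1 : HasSum (fun γ => ∑ t ∈ s, ‖sxT D h t y γ‖ ^ 2)
      (∑ t ∈ s, ‖sxT D h t y‖ ^ 2) := hasSum_sum fun t _ => lv_hasSum (sxT D h t y)
  have s2 : HasSum (fun γ => ε ^ 2 * ‖y (1⁻¹ * γ * h)‖ ^ 2) (ε ^ 2 * ‖y‖ ^ 2) := by
    have e1 : HasSum (fun γ => ‖permV (tr 1 h) y γ‖ ^ 2) (‖permV (tr 1 h) y‖ ^ 2) :=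
      lv_hasSum (permV (tr 1 h) y)
    rw [LinearIsometryEquiv.norm_map] at e1
    exact e1.mul_left (ε ^ 2)
  have s3 : ‖y‖ ≤ ‖x‖ := sx_ind_le _ x
  refine (hasSum_le hpt s1 s2).trans ?_
  exact mul_le_mul_of_nonneg_left (pow_le_pow_left₀ (norm_nonneg _) s3 2) (sq_nonneg ε)

omit [CompleteSpace L] in
private theorem sxT_main (D : Mul Γ Q ε) {h : G} (hh : h ∈ Q)
    (s : Finset G) {ξ : UP (Lv G L)} (hξ : ξ ∈ R.Vp L) :
    ∑ t ∈ s, ‖UP.map (sxT D h t) ξ‖ ^ 2 ≤ ε ^ 2 * ‖ξ‖ ^ 2 := by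
  have hcl : IsClosed {ξ : UP (Lv G L) | ∑ t ∈ s, ‖UP.map (sxT D h t) ξ‖ ^ 2 ≤ ε ^ 2 * ‖ξ‖ ^ 2} :=
    isClosed_le (by fun_prop) (by fun_prop)
  refine closure_minimal ?_ hcl (carrier hξ)
  rintro η ⟨-, n, hη⟩
  obtain ⟨A, hA, hb⟩ := sxT_bound D hh n
  have h1 := UP.sum_sq_le s (fun t => (sxT D h t).comp (ind L A))
    (C := ε ^ 2) (fun x => hb x s) η
  change ∑ t ∈ s, ‖UP.map (sxT D h t) η‖ ^ 2 ≤ ε ^ 2 * ‖η‖ ^ 2
  refine le_trans (le_of_eq ?_) h1
  refine Finset.sum_congr rfl fun t _ => ?_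
  rw [UP.map_comp, hη A hA]

end Aux

theorem apx (hD : ∀ (Q : Finset G) (ε : ℝ), 0 < ε → Nonempty (Mul Γ Q ε)) : Apx (AV Γ) (BV Γ) := by
  intro Q ε hε
  obtain ⟨D⟩ := hD Q ε hε
  let M : G → (R.Vp L →L[ℂ] R.Vp L) := fun t =>
    ((UP.map (sxM D t)).comp (R.Vp L).subtypeL).codRestrict (R.Vp L)
      (fun x => sxM_mem D t x.2)
  have hM : ∀ t (x : R.Vp L), (M t x : UP (Lv G L)) = UP.map (sxM D t) x :=
    fun t x => rfl
  refine ⟨D.supp, M, ?_, ?_, ?_, ?_⟩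
  · intro t g x
    apply Subtype.ext
    rw [hM, coe_AV, coe_AV, hM]
    exact sxM_comm D t g x.2
  · intro t ht
    refine ContinuousLinearMap.ext fun x => Subtype.ext ?_
    rw [hM, sxM_zero D ht, UP.map_zero]
    rfl
  · intro x
    exact UP.sum_sq_eq D.supp (fun t => sxM D t) (sxM_sum D) (x : UP (Lv G L))
  · intro h hh x S'
    have h1 := sxT_main D hh S' x.2
    refine le_trans (le_of_eq ?_) h1
    refine Finset.sum_congr rfl fun t _ => ?_
    rw [sxT_map]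
    rfl

end Pool.Agent.Helper84.GN
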